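import Mathlib
import Pool.Agent.H177R2.SD.Brc

set_option autoImplicit false

/-!
# Similitudes whose multiplier is divisible by a prime to an odd power
-/

namespace Pool.Agent.W825.KV

open Matrix Finset Pool.Agent.H177R2.SD.Brc

/-- the Smith form of a nonsingular integer matrix -/
theorem smith {ι : Type} [Fintype ι] [DecidableEq ι] (B : Matrix ι ι ℤ) (hB : B.det ≠ 0) :
    ∃ (U V U' V' : Matrix ι ι ℤ) (d : ι → ℤ), U * U' = 1 ∧ V * V' = 1 ∧
      U * B = Matrix.diagonal d * V := by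
  classical
  let f : (ι → ℤ) →ₗ[ℤ] (ι → ℤ) := Bᵀ.mulVecLin
  have hinj : Function.Injective f := by
    intro x y hxy
    have h1 : Bᵀ *ᵥ x = Bᵀ *ᵥ y := hxy
    have h2 : Bᵀ *ᵥ (x - y) = 0 := by rw [Matrix.mulVec_sub, h1, sub_self]
    have h3 := Matrix.eq_zero_of_mulVec_eq_zero (by rw [Matrix.det_transpose]; exact hB) h2
    exact sub_eq_zero.1 h3
  have hfin : Module.finrank ℤ (LinearMap.range f) = Module.finrank ℤ (ι → ℤ) :=
    LinearMap.finrank_range_of_inj hinj
  obtain ⟨b, d, c, hc⟩ := Submodule.exists_smith_normal_form_of_rank_eq (Pi.basisFun ℤ ι) hfin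
  let V : Matrix ι ι ℤ := Matrix.of fun i j => b i j
  let W : Matrix ι ι ℤ := Matrix.of fun i j => (c i : ι → ℤ) j
  have hW : W = Matrix.diagonal d * V := by
    ext i j
    rw [Matrix.diagonal_mul]
    simp only [W, V, Matrix.of_apply]
    rw [hc i]
    rfl
  have hmem : ∀ i, ∃ x : ι → ℤ, f x = (c i : ι → ℤ) := fun i => (c i).2
  choose u hu using hmem
  let U : Matrix ι ι ℤ := Matrix.of u
  have hU : U * B = W := by
    ext i j
    have h1 : (U * B) i j = (Bᵀ *ᵥ (u i)) j := by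
      rw [Matrix.mulVec_transpose]
      rfl
    rw [h1]
    have h2 : Bᵀ *ᵥ (u i) = (c i : ι → ℤ) := hu i
    rw [h2]
    rfl
  -- the rows of `B` in terms of the basis `c`
  have hrow : ∀ i, B i ∈ LinearMap.range f := by
    intro i
    refine ⟨Pi.single i 1, ?_⟩
    show Bᵀ *ᵥ (Pi.single i 1) = B i
    rw [Matrix.mulVec_single_one]
    rfl
  let U' : Matrix ι ι ℤ := Matrix.of fun i j => c.repr ⟨B i, hrow i⟩ j
  have hU' : U' * W = B := by
    ext i k
    have h1 := congrArg (Subtype.val) (c.sum_repr ⟨B i, hrow i⟩)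
    have h2 := congrFun h1 k
    rw [Matrix.mul_apply]
    simp only [U', W, Matrix.of_apply]
    rw [AddSubmonoidClass.coe_finsetSum, Finset.sum_apply] at h2
    refine Eq.trans (Finset.sum_congr rfl fun j _ => ?_) h2
    rfl
  have hUU : U' * U = 1 := by
    have h1 : (U' * U) * B = B := by rw [Matrix.mul_assoc, hU, hU']
    have h2 : (U' * U - 1) * B = 0 := by rw [Matrix.sub_mul, h1, Matrix.one_mul, sub_self]
    have h3 : (U' * U - 1) * (B * B.adjugate) = 0 := by rw [← Matrix.mul_assoc, h2, Matrix.zero_mul]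
    rw [Matrix.mul_adjugate, Matrix.mul_smul, Matrix.mul_one] at h3
    have h4 := (smul_eq_zero.1 h3).resolve_left hB
    exact sub_eq_zero.1 h4
  have hUU' : U * U' = 1 := mul_eq_one_comm.1 hUU
  obtain ⟨V', hV'⟩ : ∃ V' : Matrix ι ι ℤ, V * V' = 1 := by
    refine ⟨(b.toMatrix (Pi.basisFun ℤ ι))ᵀ, ?_⟩
    have h1 := b.toMatrix_mul_toMatrix_flip (Pi.basisFun ℤ ι)
    have h2 : V = ((Pi.basisFun ℤ ι).toMatrix b)ᵀ := by
      ext i j
      simp [V, Module.Basis.toMatrix_apply]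
    rw [h2, ← transpose_mul, h1, transpose_one]
  exact ⟨U, V, U', V', d, hUU', hV', by rw [hU, hW]⟩

/-- totally isotropic coordinates -/
theorem coord_isotropic {F : Type} [Field F] {ι : Type} [Fintype ι] [DecidableEq ι]
    (Φ : Matrix ι ι F) (hsym : Φᵀ = Φ) (hdet : Φ.det ≠ 0) (S : Finset ι)
    (hS : ∀ i ∈ S, ∀ j ∈ S, Φ i j = 0) :
    2 * S.card ≤ Fintype.card ι ∧ ∀ t, Fintype.card ι = 2 * t → S.card = t →
      IsSquare ((-1) ^ t * Φ.det) := by
  let v : S → (ι → F) := fun i => Pi.single i.1 1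
  have hli : LinearIndependent F v := by
    have h1 : LinearIndependent F (fun i : ι => (Pi.single i 1 : ι → F)) := by
      have := (Pi.basisFun F ι).linearIndependent
      convert this using 1
      ext i
      simp
    exact h1.comp (fun i : S => i.1) Subtype.val_injective
  have hfr : Module.finrank F (Submodule.span F (Set.range v)) = S.card := by
    rw [finrank_span_eq_card hli, Fintype.card_coe]
  have hiso : ∀ x ∈ Submodule.span F (Set.range v), ∀ y ∈ Submodule.span F (Set.range v),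
      x ⬝ᵥ Φ *ᵥ y = 0 := by
    intro x hx y hy
    induction hx using Submodule.span_induction with
    | mem x hx =>
      obtain ⟨i, rfl⟩ := hx
      induction hy using Submodule.span_induction with
      | mem y hy =>
        obtain ⟨j, rfl⟩ := hy
        simp only [v]
        rw [Matrix.mulVec_single_one, single_one_dotProduct]
        exact hS i.1 i.2 j.1 j.2
      | zero => simp
      | add y z _ _ h1 h2 => rw [Matrix.mulVec_add, dotProduct_add, h1, h2, add_zero]
      | smul r y _ h1 => rw [Matrix.mulVec_smul, dotProduct_smul, h1, smul_zero]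
    | zero => simp
    | add y z _ _ h1 h2 => rw [add_dotProduct, h1, h2, add_zero]
    | smul r y _ h1 => rw [smul_dotProduct, h1, smul_zero]
  constructor
  · have := isotropic_finrank_le Φ hsym hdet _ hiso
    rwa [hfr] at this
  · intro t ht hSt
    exact isotropic_square Φ hsym _ hiso t ht (by rw [hfr, hSt])

theorem pow_split {p : ℕ} (hp : p.Prime) {x y : ℤ} {m : ℕ} (h : (p : ℤ) ^ (2 * m + 1) ∣ x * y) :
    (p : ℤ) ^ (m + 1) ∣ x ∨ (p : ℤ) ^ (m + 1) ∣ y := by
  have hpp : Prime (p : ℤ) := Nat.prime_iff_prime_int.1 hp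
  by_contra hcon
  rw [not_or] at hcon
  obtain ⟨hx, hy⟩ := hcon
  have hx0 : x ≠ 0 := by rintro rfl; exact hx (dvd_zero _)
  have hy0 : y ≠ 0 := by rintro rfl; exact hy (dvd_zero _)
  have fx : FiniteMultiplicity (p : ℤ) x := FiniteMultiplicity.of_prime_left hpp hx0
  have fy : FiniteMultiplicity (p : ℤ) y := FiniteMultiplicity.of_prime_left hpp hy0
  obtain ⟨x', hx1, hx2⟩ := fx.exists_eq_pow_mul_and_not_dvd
  obtain ⟨y', hy1, hy2⟩ := fy.exists_eq_pow_mul_and_not_dvd
  set i := multiplicity (p : ℤ) x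
  set j := multiplicity (p : ℤ) y
  have hi : i < m + 1 := by
    by_contra h1
    push Not at h1
    exact hx (hx1 ▸ (pow_dvd_pow _ h1).mul_right _)
  have hj : j < m + 1 := by
    by_contra h1
    push Not at h1
    exact hy (hy1 ▸ (pow_dvd_pow _ h1).mul_right _)
  have hp0 : (p : ℤ) ≠ 0 := hpp.ne_zero
  rw [hx1, hy1] at h
  have h2 : (p : ℤ) ^ (i + j) * (p : ℤ) ^ (2 * m + 1 - (i + j)) ∣ (p : ℤ) ^ (i + j) * (x' * y') := by
    rw [← pow_add]
    have e : i + j + (2 * m + 1 - (i + j)) = 2 * m + 1 := by omega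
    rw [e]
    have e2 : (p : ℤ) ^ (i + j) * (x' * y') = (p : ℤ) ^ i * x' * ((p : ℤ) ^ j * y') := by
      rw [pow_add]; ring
    rw [e2]
    exact h
  have h3 := (mul_dvd_mul_iff_left (pow_ne_zero _ hp0)).1 h2
  have h4 : (p : ℤ) ∣ x' * y' := (dvd_pow_self _ (by omega)).trans h3
  rcases hpp.dvd_or_dvd h4 with h5 | h5
  · exact hx2 h5
  · exact hy2 h5

/-- **Similitudes with a multiplier divisible by `p` to an odd power.** -/
theorem simil_odd {ι : Type} [Fintype ι] [DecidableEq ι] (B Ψ Ψ' : Matrix ι ι ℤ) (n : ℤ) (p : ℕ)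
    (hp : p.Prime) (hsym : Ψᵀ = Ψ) (hsym' : Ψ'ᵀ = Ψ') (h : B * Ψ * Bᵀ = n • Ψ')
    {a : ℕ} {u : ℤ} (ha : Odd a) (hu : ¬ (p : ℤ) ∣ u) (hn : n = (p : ℤ) ^ a * u)
    (hdet : ¬ (p : ℤ) ∣ Ψ.det) (hdet' : ¬ (p : ℤ) ∣ Ψ'.det) :
    ∃ t, Fintype.card ι = 2 * t ∧ IsSquare ((-1) ^ t * ((Ψ'.det : ℤ) : ZMod p)) := by
  classical
  have : Fact p.Prime := ⟨hp⟩
  have hpp : Prime (p : ℤ) := Nat.prime_iff_prime_int.1 hp
  obtain ⟨m, hm⟩ := ha
  have hn0 : n ≠ 0 := by
    rw [hn]
    exact mul_ne_zero (pow_ne_zero _ hpp.ne_zero) (fun e => hu (e ▸ dvd_zero _))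
  have hB : B.det ≠ 0 := by
    intro h0
    have h1 := congrArg Matrix.det h
    rw [Matrix.det_mul, Matrix.det_mul, h0, Matrix.det_smul, zero_mul, zero_mul] at h1
    rcases mul_eq_zero.1 h1.symm with h2 | h2
    · exact pow_ne_zero _ hn0 h2
    · exact hdet' (h2 ▸ dvd_zero _)
  obtain ⟨U, V, U', V', d, hU, hV, hUB⟩ := smith B hB
  set Φ := V * Ψ * Vᵀ with hΦ
  set Φ' := U * Ψ' * Uᵀ with hΦ'
  have hmain : Matrix.diagonal d * Φ * Matrix.diagonal d = n • Φ' := by
    have h1 : U * (B * Ψ * Bᵀ) * Uᵀ = Matrix.diagonal d * Φ * Matrix.diagonal d := by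
      have e1 : U * (B * Ψ * Bᵀ) * Uᵀ = (U * B) * Ψ * (U * B)ᵀ := by
        rw [Matrix.transpose_mul]
        simp only [Matrix.mul_assoc]
      rw [e1, hUB, Matrix.transpose_mul, Matrix.diagonal_transpose, hΦ]
      simp only [Matrix.mul_assoc]
    rw [← h1, h, Matrix.mul_smul, Matrix.smul_mul]
  have hent : ∀ i j, d i * d j * Φ i j = n * Φ' i j := by
    intro i j
    have h1 := congrFun (congrFun hmain i) j
    rw [Matrix.mul_diagonal, Matrix.diagonal_mul, Matrix.smul_apply, smul_eq_mul] at h1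
    rw [← h1]; ring
  have hΦs : Φᵀ = Φ := by
    rw [hΦ, Matrix.transpose_mul, Matrix.transpose_mul, Matrix.transpose_transpose, hsym,
      Matrix.mul_assoc]
  have hΦs' : Φ'ᵀ = Φ' := by
    rw [hΦ', Matrix.transpose_mul, Matrix.transpose_mul, Matrix.transpose_transpose, hsym',
      Matrix.mul_assoc]
  set S := univ.filter (fun i => ¬ (p : ℤ) ^ (m + 1) ∣ d i) with hS
  set T := univ.filter (fun i => (p : ℤ) ^ (m + 1) ∣ d i) with hT
  have hST : T.card + S.card = Fintype.card ι := card_filter_add_card_filter_not _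
  have h1S : ∀ i ∈ S, ∀ j ∈ S, (p : ℤ) ∣ Φ i j := by
    intro i hi j hj
    by_contra hcon
    have h1 : (p : ℤ) ^ (2 * m + 1) ∣ (d i * d j) * Φ i j := by
      rw [hent, hn, hm, mul_assoc]
      exact dvd_mul_right _ _
    have h2 : IsCoprime ((p : ℤ) ^ (2 * m + 1)) (Φ i j) :=
      IsCoprime.pow_left ((Prime.coprime_iff_not_dvd hpp).2 hcon)
    have h3 := h2.dvd_of_dvd_mul_right h1
    rcases pow_split hp h3 with h4 | h4
    · exact (mem_filter.1 hi).2 h4
    · exact (mem_filter.1 hj).2 h4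
  have h1T : ∀ i ∈ T, ∀ j ∈ T, (p : ℤ) ∣ Φ' i j := by
    intro i hi j hj
    have h1 : (p : ℤ) ^ (2 * m + 1) * (p : ℤ) ∣ (p : ℤ) ^ (2 * m + 1) * (u * Φ' i j) := by
      have e : (p : ℤ) ^ (2 * m + 1) * (u * Φ' i j) = d i * d j * Φ i j := by
        rw [hent, hn, hm]; ring
      rw [e, ← pow_succ]
      have e2 : 2 * m + 1 + 1 = (m + 1) + (m + 1) := by ring
      rw [e2, pow_add]
      exact (mul_dvd_mul (mem_filter.1 hi).2 (mem_filter.1 hj).2).mul_right _
    have h2 := (mul_dvd_mul_iff_left (pow_ne_zero _ hpp.ne_zero)).1 h1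
    exact (hpp.dvd_or_dvd h2).resolve_left hu
  set φ := Int.castRingHom (ZMod p) with hφ
  have hdU : φ U.det ≠ 0 := by
    intro h0
    have h1 := congrArg Matrix.det hU
    rw [Matrix.det_mul, Matrix.det_one] at h1
    have h2 := congrArg φ h1
    rw [map_mul, h0, zero_mul, map_one] at h2
    exact zero_ne_one h2
  have hdV : φ V.det ≠ 0 := by
    intro h0
    have h1 := congrArg Matrix.det hV
    rw [Matrix.det_mul, Matrix.det_one] at h1
    have h2 := congrArg φ h1
    rw [map_mul, h0, zero_mul, map_one] at h2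
    exact zero_ne_one h2
  have hne : ∀ M : Matrix ι ι ℤ, ¬ (p : ℤ) ∣ M.det → φ M.det ≠ 0 := by
    intro M hM h0
    exact hM ((ZMod.intCast_zmod_eq_zero_iff_dvd _ _).1 h0)
  have hdet1 : (Φ.map φ).det ≠ 0 := by
    have e : (Φ.map φ).det = φ V.det * φ Ψ.det * φ V.det := by
      rw [← RingHom.mapMatrix_apply, ← RingHom.map_det, hΦ, Matrix.det_mul, Matrix.det_mul,
        Matrix.det_transpose, map_mul, map_mul]
    rw [e]
    exact mul_ne_zero (mul_ne_zero hdV (hne _ hdet)) hdV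
  have e' : (Φ'.map φ).det = φ U.det * φ Ψ'.det * φ U.det := by
    rw [← RingHom.mapMatrix_apply, ← RingHom.map_det, hΦ', Matrix.det_mul, Matrix.det_mul,
      Matrix.det_transpose, map_mul, map_mul]
  have hdet1' : (Φ'.map φ).det ≠ 0 := by
    rw [e']
    exact mul_ne_zero (mul_ne_zero hdU (hne _ hdet')) hdU
  have hz : ∀ x : ℤ, (p : ℤ) ∣ x → φ x = 0 := fun x hx =>
    (ZMod.intCast_zmod_eq_zero_iff_dvd _ _).2 hx
  obtain ⟨c1, -⟩ := coord_isotropic (Φ.map φ) (by rw [← Matrix.transpose_map, hΦs]) hdet1 S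
    (fun i hi j hj => hz _ (h1S i hi j hj))
  obtain ⟨c2, c3⟩ := coord_isotropic (Φ'.map φ) (by rw [← Matrix.transpose_map, hΦs']) hdet1' T
    (fun i hi j hj => hz _ (h1T i hi j hj))
  refine ⟨T.card, by omega, ?_⟩
  obtain ⟨w, hw⟩ := c3 T.card (by omega) rfl
  rw [e'] at hw
  refine ⟨w / φ U.det, ?_⟩
  have : (Int.cast Ψ'.det : ZMod p) = φ Ψ'.det := rfl
  rw [this]
  field_simp
  rw [pow_two, pow_two, ← hw]
  ring

end Pool.Agent.W825.KV
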