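import Mathlib
import Pool.Agent.H634R3.PPC.OrbTest2
import Pool.Agent.W825.FP.Orb
import Pool.Agent.W825.KV.Smith

set_option autoImplicit false

/-!
# The discriminant test for a group and a subgroup of index two
-/

namespace Pool.Agent.W825.KV

open Finset MulAction Pool.Agent.H634R3.PPC

variable {G : Type} [Group G] [Fintype G] {P L : Type} [Fintype P] [Fintype L] [MulAction G P]
  [MulAction G L] {inc : P → L → Prop}

theorem free_two {X : Type} [Fintype X] [DecidableEq X] (ρ : Equiv.Perm X) (hρ : ρ ^ 2 = 1)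
    (hfree : ∀ x, ρ x ≠ x) : ∃ (T : Type) (_ : Fintype T) (_ : DecidableEq T)
      (e : T × ZMod 2 ≃ X), ∀ t, e (t, 1) = ρ (e (t, 0)) := by
  obtain ⟨T, h1, h2, e, he⟩ := free_decomp Nat.prime_two ρ hρ hfree
  refine ⟨T, h1, h2, e, fun t => ?_⟩
  have := he t 0 1
  rw [zero_add] at this
  rw [this]
  have h3 : (1 : ZMod 2).val = 1 := rfl
  rw [h3, pow_one]

omit [Fintype G] in
theorem bar_sq {X : Type} [Fintype X] [MulAction G X] (H : Subgroup G) {g : G} (hg : Nrm H g)
    (hg2 : g ^ 2 ∈ H) (α : orbitRel.Quotient H X) : bar H hg (bar H hg α) = α := by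
  obtain ⟨x, rfl⟩ := cls_surj H α
  rw [bar_cls, bar_cls, smul_smul, ← pow_two, cls_smul H hg2]

open Classical in
theorem real_test {n la : ℕ} (D : Des inc n la)
    (hinc : ∀ (g : G) (p : P) (l : L), inc (g • p) (g • l) ↔ inc p l) (H : Subgroup G) {g : G}
    (hg : Nrm H g) (hg2 : g ^ 2 ∈ H) {p : ℕ} (hp : p.Prime) (M : ℕ) (hM : ¬ p ∣ M)
    (hMP : ∀ α : orbitRel.Quotient H P, sz H α ∣ M)
    (hML : ∀ β : orbitRel.Quotient H L, sz H β ∣ M)
    {a : ℕ} (ha : Odd a) {u : ℕ} (hu : ¬ p ∣ u) (hN : n = p ^ a * u) :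
    ∃ (T : Type) (_ : Fintype T) (e : T × ZMod 2 ≃
        {α : orbitRel.Quotient H P // bar H hg α ≠ α}),
      (∀ t, (e (t, 1)).1 = bar H hg (e (t, 0)).1) ∧
      ∃ t, Fintype.card T = 2 * t ∧
        IsSquare ((-1) ^ t * ∏ s : T, ((M / sz H (e (s, 0)).1 : ℕ) : ZMod p)) := by
  let σ : Equiv.Perm (orbitRel.Quotient H P) := bar H hg
  let τ : Equiv.Perm (orbitRel.Quotient H L) := bar H hg
  have hσ : ∀ α, σ (σ α) = α := fun α => bar_sq H hg hg2 α
  have hτ : ∀ β, τ (τ β) = β := fun β => bar_sq H hg hg2 β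
  let X := {α : orbitRel.Quotient H P // σ α ≠ α}
  let Y := {β : orbitRel.Quotient H L // τ β ≠ β}
  let ρ : Equiv.Perm X := σ.subtypePerm (fun p => by
    simp only [ne_eq, EmbeddingLike.apply_eq_iff_eq])
  let ρ' : Equiv.Perm Y := τ.subtypePerm (fun l => by
    simp only [ne_eq, EmbeddingLike.apply_eq_iff_eq])
  obtain ⟨T, hTf, hTd, e, he⟩ := free_two ρ (by
    ext x
    rw [pow_two]
    exact hσ x.1) (fun x hx => x.2 (congrArg Subtype.val hx))
  obtain ⟨T', hTf', hTd', e', he'⟩ := free_two ρ' (by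
    ext x
    rw [pow_two]
    exact hτ x.1) (fun x hx => x.2 (congrArg Subtype.val hx))
  have heσ : ∀ t, (e (t, 1)).1 = σ (e (t, 0)).1 := fun t => congrArg Subtype.val (he t)
  have heτ : ∀ t, (e' (t, 1)).1 = τ (e' (t, 0)).1 := fun t => congrArg Subtype.val (he' t)
  -- counting
  have hfix := card_fixed_classes D hinc H hg
  have hcl := card_classes D hinc H
  have hX : Fintype.card X + (univ.filter (fun p => σ p = p)).card =
      Fintype.card (orbitRel.Quotient H P) := by
    rw [Fintype.card_subtype, add_comm]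
    exact card_filter_add_card_filter_not _
  have hY : Fintype.card Y + (univ.filter (fun l => τ l = l)).card =
      Fintype.card (orbitRel.Quotient H L) := by
    rw [Fintype.card_subtype, add_comm]
    exact card_filter_add_card_filter_not _
  have hXT : Fintype.card X = Fintype.card T * 2 := by
    rw [← Fintype.card_congr e, Fintype.card_prod, ZMod.card]
  have hYT : Fintype.card Y = Fintype.card T' * 2 := by
    rw [← Fintype.card_congr e', Fintype.card_prod, ZMod.card]
  have hTT : Fintype.card T = Fintype.card T' := by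
    have h1 : (univ.filter (fun p => σ p = p)).card = (univ.filter (fun l => τ l = l)).card := hfix
    omega
  let ε : T ≃ T' := Fintype.equivOfCardEq hTT
  -- the matrices
  let A : Matrix T T ℤ := fun s t => (aa inc H (e (s, 0)).1.out (e' (ε t, 0)).1 : ℤ) -
    aa inc H (e (s, 0)).1.out (e' (ε t, 1)).1
  let B : Matrix T T ℤ := fun s t => (bb inc H (e (s, 0)).1 (e' (ε t, 0)).1.out : ℤ) -
    bb inc H (e (s, 0)).1 (e' (ε t, 1)).1.out
  have hAB : ∀ s u, ∑ t, A s t * B u t = if s = u then (n : ℤ) else 0 := by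
    intro s u
    let E : orbitRel.Quotient H L → ℤ := fun β => (bb inc H (e (u, 0)).1 β.out : ℤ) -
      bb inc H (σ (e (u, 0)).1) β.out
    have r1 := row_rel hinc D H (e (s, 0)).1.out (e (u, 0)).1
    have r2 := row_rel hinc D H (e (s, 0)).1.out (σ (e (u, 0)).1)
    rw [cls_out] at r1 r2
    have h1 : ∑ β, (aa inc H (e (s, 0)).1.out β : ℤ) * E β = if s = u then (n : ℤ) else 0 := by
      have r1' : ∑ β, (aa inc H (e (s, 0)).1.out β : ℤ) * bb inc H (e (u, 0)).1 β.out =
          (if (e (s, 0)).1 = (e (u, 0)).1 then (n : ℤ) else 0) + la * sz H (e (u, 0)).1 := by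
        have := congrArg (fun x : ℕ => (x : ℤ)) r1
        push_cast at this
        exact this
      have r2' : ∑ β, (aa inc H (e (s, 0)).1.out β : ℤ) * bb inc H (σ (e (u, 0)).1) β.out =
          (if (e (s, 0)).1 = σ (e (u, 0)).1 then (n : ℤ) else 0) +
            la * sz H (σ (e (u, 0)).1) := by
        have := congrArg (fun x : ℕ => (x : ℤ)) r2
        push_cast at this
        exact this
      have h2 : sz H (σ (e (u, 0)).1) = sz H (e (u, 0)).1 :=
        Pool.Agent.W825.FP.sz_bar H hg _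
      have h3 : (e (s, 0)).1 ≠ σ (e (u, 0)).1 := by
        rw [← heσ]
        intro h4
        have h5 := e.injective (Subtype.ext h4)
        rw [Prod.mk.injEq] at h5
        exact absurd h5.2 (by decide)
      have h4 : ((e (s, 0)).1 = (e (u, 0)).1) ↔ s = u := by
        rw [Subtype.val_inj, EmbeddingLike.apply_eq_iff_eq, Prod.mk.injEq]
        simp
      rw [if_neg h3, h2] at r2'
      simp only [h4] at r1'
      simp only [E, mul_sub, sum_sub_distrib]
      rw [r1', r2']
      ring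
    -- `E` is antisymmetric
    have hbb : ∀ α β, bb inc H (σ α) (τ β).out = bb inc H α β.out := fun α β => bb_bar hinc H hg α β
    have hE : ∀ β, E (τ β) = - E β := by
      intro β
      simp only [E]
      rw [hbb]
      have h5 : bb inc H (e (u, 0)).1 (τ β).out = bb inc H (σ (e (u, 0)).1) β.out := by
        rw [← hbb (σ (e (u, 0)).1) β, hσ]
      rw [h5]
      ring
    have hE0 : ∀ β, τ β = β → E β = 0 := by
      intro β hβ
      have h5 := hE β
      rw [hβ] at h5
      linarith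
    have h6 : ∑ β, (aa inc H (e (s, 0)).1.out β : ℤ) * E β =
        ∑ y : Y, (aa inc H (e (s, 0)).1.out y.1 : ℤ) * E y.1 := by
      rw [← Finset.sum_subtype (univ.filter (fun l : orbitRel.Quotient H L => τ l ≠ l)) (by simp)
        (fun β => (aa inc H (e (s, 0)).1.out β : ℤ) * E β)]
      symm
      apply sum_subset (filter_subset _ _)
      intro β _ hβ
      rw [mem_filter, not_and, not_not] at hβ
      rw [hE0 β (hβ (mem_univ _)), mul_zero]
    rw [← h1, h6, ← Equiv.sum_comp ((Equiv.prodCongr ε (Equiv.refl (ZMod 2))).trans e'),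
      Fintype.sum_prod_type]
    refine sum_congr rfl fun t _ => ?_
    have h7 : ∀ f : ZMod 2 → ℤ, ∑ i : ZMod 2, f i = f 0 + f 1 := fun f => Fin.sum_univ_two f
    rw [h7]
    simp only [Equiv.trans_apply, Equiv.prodCongr_apply, Prod.map, Equiv.refl_apply]
    have h8 : E (e' (ε t, 1)).1 = - E (e' (ε t, 0)).1 := by rw [heτ, hE]
    have h9 : E (e' (ε t, 0)).1 = B u t := by
      simp only [E, B]
      congr 2
      rw [heτ, ← hbb (e (u, 0)).1 (τ (e' (ε t, 0)).1), hτ]
    rw [h8, h9]
    simp only [A]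
    ring
  have hszL : ∀ t, sz H (e' (t, 1)).1 = sz H (e' (t, 0)).1 := by
    intro t
    rw [heτ]
    exact Pool.Agent.W825.FP.sz_bar H hg _
  have hsAB : ∀ s t, (sz H (e (s, 0)).1 : ℤ) * A s t = sz H (e' (ε t, 0)).1 * B s t := by
    intro s t
    have h3 := sz_aa hinc H (e (s, 0)).1.out (e' (ε t, 0)).1.out
    have h4 := sz_aa hinc H (e (s, 0)).1.out (e' (ε t, 1)).1.out
    rw [cls_out, cls_out] at h3 h4
    rw [hszL] at h4
    have h3' : (sz H (e (s, 0)).1 : ℤ) * aa inc H (e (s, 0)).1.out (e' (ε t, 0)).1 =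
        sz H (e' (ε t, 0)).1 * bb inc H (e (s, 0)).1 (e' (ε t, 0)).1.out := by exact_mod_cast h3
    have h4' : (sz H (e (s, 0)).1 : ℤ) * aa inc H (e (s, 0)).1.out (e' (ε t, 1)).1 =
        sz H (e' (ε t, 0)).1 * bb inc H (e (s, 0)).1 (e' (ε t, 1)).1.out := by exact_mod_cast h4
    simp only [A, B]
    rw [mul_sub, mul_sub, h3', h4']
  have hM0 : M ≠ 0 := by rintro rfl; exact hM (dvd_zero _)
  -- the quotients
  let mP : T → ℤ := fun s => ((M / sz H (e (s, 0)).1 : ℕ) : ℤ)
  let mL : T → ℤ := fun t => ((M / sz H (e' (ε t, 0)).1 : ℕ) : ℤ)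
  have hmP : ∀ s, mP s * sz H (e (s, 0)).1 = M := by
    intro s
    simp only [mP]
    exact_mod_cast Nat.div_mul_cancel (hMP _)
  have hmL : ∀ t, mL t * sz H (e' (ε t, 0)).1 = M := by
    intro t
    simp only [mL]
    exact_mod_cast Nat.div_mul_cancel (hML _)
  have hMZ : (M : ℤ) ≠ 0 := by exact_mod_cast hM0
  have hkey : ∀ s t, mL t * A s t = mP s * B s t := by
    intro s t
    have h1 := hsAB s t
    have h2 := hmP s
    have h3 := hmL t
    have h4 : (sz H (e (s, 0)).1 : ℤ) ≠ 0 := by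
      intro h0; rw [h0, mul_zero] at h2; exact hMZ h2.symm
    have h5 : (sz H (e' (ε t, 0)).1 : ℤ) ≠ 0 := by
      intro h0; rw [h0, mul_zero] at h3; exact hMZ h3.symm
    apply mul_left_cancel₀ (mul_ne_zero h4 h5)
    calc (sz H (e (s, 0)).1 : ℤ) * sz H (e' (ε t, 0)).1 * (mL t * A s t) =
          (mL t * sz H (e' (ε t, 0)).1) * (sz H (e (s, 0)).1 * A s t) := by ring
      _ = (mP s * sz H (e (s, 0)).1) * (sz H (e' (ε t, 0)).1 * B s t) := by rw [h3, h1, h2]
      _ = _ := by ring
  have hsim : A * Matrix.diagonal mL * A.transpose = (n : ℤ) • Matrix.diagonal mP := by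
    ext s u
    rw [Matrix.mul_apply, Matrix.smul_apply, Matrix.diagonal_apply]
    have h1 : ∀ t, (A * Matrix.diagonal mL) s t * A.transpose t u = mP u * (A s t * B u t) := by
      intro t
      rw [Matrix.mul_diagonal, Matrix.transpose_apply]
      calc A s t * mL t * A u t = A s t * (mL t * A u t) := by ring
        _ = A s t * (mP u * B u t) := by rw [hkey]
        _ = _ := by ring
    rw [sum_congr rfl (fun t _ => h1 t), ← mul_sum, hAB]
    by_cases hsu : s = u
    · subst hsu
      rw [if_pos rfl, if_pos rfl, smul_eq_mul, mul_comm]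
    · rw [if_neg hsu, if_neg hsu, mul_zero, smul_zero]
  have hpp : Prime (p : ℤ) := Nat.prime_iff_prime_int.1 hp
  have hnd : ∀ f : T → ℤ, (∀ s, ∃ c : ℤ, f s * c = M) → ¬ (p : ℤ) ∣ (Matrix.diagonal f).det := by
    intro f hf
    rw [Matrix.det_diagonal, hpp.dvd_finsetProd_iff]
    rintro ⟨s, -, hs⟩
    obtain ⟨c, hc⟩ := hf s
    have : (p : ℤ) ∣ M := by rw [← hc]; exact hs.mul_right c
    exact hM (by exact_mod_cast this)
  obtain ⟨t, ht1, ht2⟩ := simil_odd A (Matrix.diagonal mL) (Matrix.diagonal mP) n p hp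
    (Matrix.diagonal_transpose _) (Matrix.diagonal_transpose _) hsim ha (u := (u : ℤ))
    (by intro h1; exact hu (by exact_mod_cast h1)) (by rw [hN]; push_cast; ring)
    (hnd mL (fun s => ⟨_, hmL s⟩)) (hnd mP (fun s => ⟨_, hmP s⟩))
  refine ⟨T, hTf, e, heσ, t, ht1, ?_⟩
  rw [Matrix.det_diagonal, Int.cast_prod] at ht2
  have h1 : ∀ s, ((mP s : ℤ) : ZMod p) = ((M / sz H (e (s, 0)).1 : ℕ) : ZMod p) :=
    fun s => Int.cast_natCast _
  rw [prod_congr rfl (fun s _ => h1 s)] at ht2
  exact ht2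

end Pool.Agent.W825.KV
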