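import Mathlib
import Pool.Agent.W825.KV.Real

set_option autoImplicit false

/-!
# Counting the classes of the two sizes
-/

namespace Pool.Agent.W825.KV

open Finset MulAction Pool.Agent.H634R3.PPC

variable {G : Type} [Group G] [Fintype G] {P L : Type} [Fintype P] [Fintype L] [MulAction G P]
  [MulAction G L] {inc : P → L → Prop}

open Classical in
theorem card_points_of {X : Type} [Fintype X] [MulAction G X] (H : Subgroup G)
    (A : Finset (orbitRel.Quotient H X)) (k : ℕ) (hA : ∀ α ∈ A, sz H α = k) :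
    (univ.filter (fun x : X => cls H x ∈ A)).card = k * A.card := by
  rw [card_eq_sum_card_fiberwise (s := univ.filter (fun x : X => cls H x ∈ A)) (f := cls H)
    (t := A) (fun x hx => by rw [mem_coe, mem_filter] at hx; exact hx.2)]
  rw [sum_congr rfl (g := fun _ => k), sum_const, smul_eq_mul, mul_comm]
  intro α hα
  rw [← hA α hα]
  unfold sz
  congr 1
  ext x
  rw [mem_filter, mem_filter, mem_filter]
  constructor
  · rintro ⟨⟨_, _⟩, h⟩; exact ⟨mem_univ _, h⟩
  · rintro ⟨_, h⟩; exact ⟨⟨mem_univ _, h ▸ hα⟩, h⟩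

open Classical in
theorem real_count {n la : ℕ} (D : Des inc n la)
    (hinc : ∀ (g : G) (p : P) (l : L), inc (g • p) (g • l) ↔ inc p l) (H : Subgroup G) {g : G}
    (hg : Nrm H g) (hg2 : g ^ 2 ∈ H) {p : ℕ} (hp : p.Prime) (k : ℕ) (hk : ¬ p ∣ 2 * k)
    (hMP : ∀ α : orbitRel.Quotient H P, sz H α ∣ 2 * k)
    (hML : ∀ β : orbitRel.Quotient H L, sz H β ∣ 2 * k)
    (hall : ∀ α : orbitRel.Quotient H P, bar H hg α ≠ α → sz H α = k ∨ sz H α = 2 * k)
    {a : ℕ} (ha : Odd a) {u : ℕ} (hu : ¬ p ∣ u) (hN : n = p ^ a * u) :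
    ∃ c d t : ℕ,
      (univ.filter (fun x : P => bar H hg (cls H x) ≠ cls H x ∧ sz H (cls H x) = k)).card =
        k * (2 * c) ∧
      (univ.filter (fun x : P => bar H hg (cls H x) ≠ cls H x ∧ sz H (cls H x) = 2 * k)).card =
        2 * k * (2 * d) ∧ c + d = 2 * t ∧ IsSquare ((-1) ^ t * 2 ^ c : ZMod p) := by
  obtain ⟨T, hT, e, he, t, ht, hsq⟩ := real_test D hinc H hg hg2 hp (2 * k) hk hMP hML ha hu hN
  have hk0 : k ≠ 0 := by rintro rfl; exact hk (dvd_zero _)
  have he' : ∀ t i, sz H (e (t, i)).1 = sz H (e (t, 0)).1 := by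
    intro t i
    have : i = 0 ∨ i = 1 := by
      revert i; decide
    rcases this with rfl | rfl
    · rfl
    · rw [he]; exact Pool.Agent.W825.FP.sz_bar H hg _
  have hcount : ∀ m : ℕ, (univ.filter (fun α : orbitRel.Quotient H P =>
      bar H hg α ≠ α ∧ sz H α = m)).card =
      2 * (univ.filter (fun t : T => sz H (e (t, 0)).1 = m)).card := by
    intro m
    have h1 : (univ.filter (fun α : orbitRel.Quotient H P => bar H hg α ≠ α ∧ sz H α = m)).card =
        ((univ.filter (fun t : T => sz H (e (t, 0)).1 = m)) ×ˢ (univ : Finset (ZMod 2))).card := by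
      symm
      apply card_bij (fun x _ => (e x).1)
      · intro x hx
        rw [mem_product, mem_filter] at hx
        rw [mem_filter]
        refine ⟨mem_univ _, (e x).2, ?_⟩
        rw [← hx.1.2]
        exact he' x.1 x.2
      · intro x _ y _ h
        exact e.injective (Subtype.ext h)
      · intro α hα
        rw [mem_filter] at hα
        refine ⟨e.symm ⟨α, hα.2.1⟩, ?_, by simp⟩
        rw [mem_product, mem_filter]
        refine ⟨⟨mem_univ _, ?_⟩, mem_univ _⟩
        rw [← he' _ (e.symm ⟨α, hα.2.1⟩).2, Prod.mk.eta, Equiv.apply_symm_apply]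
        exact hα.2.2
    rw [h1, card_product, card_univ, ZMod.card, mul_comm]
  have hpts : ∀ m : ℕ, (univ.filter (fun x : P => bar H hg (cls H x) ≠ cls H x ∧
      sz H (cls H x) = m)).card = m * (2 * (univ.filter (fun t : T => sz H (e (t, 0)).1 = m)).card)
      := by
    intro m
    rw [← hcount, ← card_points_of H (univ.filter (fun α : orbitRel.Quotient H P =>
      bar H hg α ≠ α ∧ sz H α = m)) m (fun α hα => (mem_filter.1 hα).2.2)]
    congr 1
    ext x
    simp only [mem_filter, mem_univ, true_and]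
  have hallT : ∀ s : T, sz H (e (s, 0)).1 = k ∨ sz H (e (s, 0)).1 = 2 * k :=
    fun s => hall _ (e (s, 0)).2
  refine ⟨(univ.filter (fun t : T => sz H (e (t, 0)).1 = k)).card,
    (univ.filter (fun t : T => sz H (e (t, 0)).1 = 2 * k)).card, t, hpts k, hpts (2 * k), ?_, ?_⟩
  · rw [← ht, ← card_union_of_disjoint]
    · rw [← card_univ]
      congr 1
      ext s
      simp only [mem_union, mem_filter, mem_univ, true_and, iff_true]
      exact hallT s
    · rw [disjoint_left]
      intro s h1 h2
      rw [mem_filter] at h1 h2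
      omega
  · have h1 : ∏ s : T, ((2 * k / sz H (e (s, 0)).1 : ℕ) : ZMod p) =
        ∏ s : T, (if sz H (e (s, 0)).1 = k then (2 : ZMod p) else 1) := by
      refine prod_congr rfl fun s _ => ?_
      rcases hallT s with h | h
      · rw [if_pos h, h, Nat.mul_div_cancel _ (Nat.pos_of_ne_zero hk0)]
        norm_cast
      · rw [if_neg (by omega), h, Nat.div_self (by omega)]
        norm_cast
    rw [h1, prod_ite, prod_const, prod_const_one, mul_one] at hsq
    exact hsq

end Pool.Agent.W825.KV
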