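import Mathlib
import Pool.Agent.H634R3.WG.TaskFix
import Pool.Agent.H634R3.WG.TaskAxis
import Pool.Agent.H634R3.WG.TaskBaer
import Pool.Agent.W825.FP.Persp
import Pool.Agent.W825.FP.Pp
import Pool.Agent.W825.KV.Cnt

set_option autoImplicit false

/-!
# Involutions and four-groups in planes of order 3 modulo 4
-/

namespace Pool.Agent.W825.KV

open Configuration Configuration.ProjectivePlane Configuration.Nondegenerate Finset MulAction
  Pool.Agent.H634R3.PPC Pool.Agent.H634R3.WG Pool.Agent.W825.FP

section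

variable {G P L : Type} [Group G] [Fintype G] [Fintype P] [Fintype L] [Membership P L]
  [ProjectivePlane P L] [MulAction G P] [MulAction G L]

theorem card_on (l : L) [DecidablePred (fun x : P => x ∈ l)] :
    (univ.filter (fun x : P => x ∈ l)).card = order P L + 1 := by
  rw [← Fintype.card_subtype, ← Nat.card_eq_fintype_card]
  exact pointCount_eq P l

omit [Fintype G] in
theorem par_fix (s : G) (hs : s * s = 1) (p : P → Prop) (hp : ∀ x, p (s • x) ↔ p x)
    (A B : Finset P) (hA : ∀ x, x ∈ A ↔ p x) (hB : ∀ x, x ∈ B ↔ p x ∧ s • x = x) :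
    A.card % 2 = B.card % 2 := by
  classical
  have h1 : (MulAction.toPerm s : Equiv.Perm P) ^ 2 ^ 1 = 1 := by
    ext x
    rw [pow_one, pow_two]
    show s • s • x = x
    rw [smul_smul, hs, one_smul]
  have h2 := fix_mod (MulAction.toPerm s : Equiv.Perm P) Nat.prime_two h1 p hp
  rw [Fintype.card_subtype, Fintype.card_subtype] at h2
  have e1 : univ.filter p = A := by ext x; rw [mem_filter, hA]; simp
  have e2 : univ.filter (fun x => p x ∧ (MulAction.toPerm s : Equiv.Perm P) x = x) = B := by
    ext x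
    rw [mem_filter, hB]
    simp
  rw [e1, e2] at h2
  exact h2

open Classical in
theorem card_fixed_persp (hcol : Col G P L) {s : G} {A : P} {l : L} (h : Persp s A l) (hs : s ≠ 1)
    (hA : A ∉ l) : (univ.filter (fun x : P => s • x = x)).card = order P L + 2 := by
  obtain ⟨h1, h2, h3, h4⟩ := TaskFix.taskFix G P L hcol s A l h hs
  have e : univ.filter (fun x : P => s • x = x) = insert A (univ.filter (fun x : P => x ∈ l)) := by
    ext x
    rw [mem_filter, mem_insert, mem_filter]
    constructor
    · rintro ⟨_, hx⟩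
      rcases h1 x hx with h5 | h5
      · exact Or.inl h5
      · exact Or.inr ⟨mem_univ _, h5⟩
    · rintro (rfl | hx)
      · exact ⟨mem_univ _, h3⟩
      · exact ⟨mem_univ _, h.ax x hx.2⟩
  rw [e, card_insert_of_notMem (by rw [mem_filter]; exact fun h => hA h.2), card_on]

open Classical in
theorem invol (hcol : Col G P L) (hodd : Odd (order P L)) (hns : ¬ IsSquare (order P L)) {s : G}
    (hs1 : s ≠ 1) (hs : s * s = 1) : ∃ (A : P) (l : L), Persp s A l ∧ A ∉ l := by
  obtain ⟨l, hl⟩ := (TaskBaer.taskBaer G P L hcol s hs).resolve_left hns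
  obtain ⟨A, hA⟩ := TaskAxis.taskAxis G P L hcol s l hl
  refine ⟨A, l, hA, fun hAl => ?_⟩
  obtain ⟨h1, h2, h3, h4⟩ := TaskFix.taskFix G P L hcol s A l hA hs1
  have h5 := par_fix (P := P) s hs (fun _ => True) (fun _ => Iff.rfl) univ
    (univ.filter (fun x : P => x ∈ l)) (fun x => by simp) (fun x => by
      rw [mem_filter]
      constructor
      · rintro ⟨_, hx⟩
        exact ⟨trivial, hA.ax x hx⟩
      · rintro ⟨_, hx⟩
        rcases h1 x hx with h5 | h5
        · exact ⟨mem_univ _, h5 ▸ hAl⟩
        · exact ⟨mem_univ _, h5⟩)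
  rw [card_on, card_univ, card_points P L] at h5
  obtain ⟨m, hm⟩ := hodd
  rw [hm] at h5
  ring_nf at h5
  omega

/-- an element commuting with a homology fixes its centre -/
theorem centre_fixed (hcol : Col G P L) {s z : G} {A : P} {l : L} (h : Persp s A l) (hs : s ≠ 1)
    (hc : s * z = z * s) : z • A = A := by
  obtain ⟨h1, h2, h3, h4⟩ := TaskFix.taskFix G P L hcol s A l h hs
  by_contra hne
  obtain ⟨r, hr, hrl, hrm⟩ := three_lines (z • A) l (HasLines.mkLine hne)
  have h5 : A ∈ z⁻¹ • r := by
    have h6 := (hcol.inc z⁻¹ (z • A) r).2 hr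
    rwa [inv_smul_smul] at h6
  have h7 := h.ce _ h5
  have h8 : s • r = r := by
    have h9 : z⁻¹ • s • r = z⁻¹ • r := by
      rw [smul_smul]
      have : z⁻¹ * s = s * z⁻¹ := by
        rw [eq_mul_inv_iff_mul_eq, mul_assoc, hc, ← mul_assoc, inv_mul_cancel, one_mul]
      rw [this, ← smul_smul]
      exact h7
    exact MulAction.injective z⁻¹ h9
  rcases h2 r h8 with h9 | h9
  · exact hrl h9
  · have a1 := HasLines.mkLine_ax hne (L := L)
    rcases eq_or_eq hr h9 a1.1 a1.2 with h10 | h10
    · exact hne h10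
    · exact hrm h10

theorem not_square {n : ℕ} (h4 : n % 4 = 3) : ¬ IsSquare n := by
  rintro ⟨a, rfl⟩
  have : a % 4 = 0 ∨ a % 4 = 1 ∨ a % 4 = 2 ∨ a % 4 = 3 := by omega
  rcases this with h | h | h | h <;> rw [Nat.mul_mod, h] at h4 <;> omega

/-- two commuting homologies with the same centre and axis -/
theorem same_axis (hcol : Col G P L) {s z : G} {A : P} {l : L} (hs1 : s ≠ 1) (hz1 : z ≠ 1)
    (hne : s ≠ z) (hs : s * s = 1) (hz : z * z = 1) (hc : s * z = z * s) (hPs : Persp s A l)
    (hPz : Persp z A l) (hA : A ∉ l) : 4 ∣ order P L - 1 := by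
  classical
  have hsz1 : s * z ≠ 1 := by
    intro e
    apply hne
    calc s = s * (z * z) := by rw [hz, mul_one]
      _ = z := by rw [← mul_assoc, e, one_mul]
  have hPsz : Persp (s * z) A l := by
    refine ⟨fun p hp => ?_, fun m hm => ?_⟩
    · rw [mul_smul, hPz.ax p hp, hPs.ax p hp]
    · rw [mul_smul, hPz.ce m hm, hPs.ce m hm]
  obtain ⟨f1, -, -, -⟩ := TaskFix.taskFix G P L hcol s A l hPs hs1
  obtain ⟨g1, -, -, -⟩ := TaskFix.taskFix G P L hcol z A l hPz hz1
  obtain ⟨k1, -, -, -⟩ := TaskFix.taskFix G P L hcol (s * z) A l hPsz hsz1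
  obtain ⟨r, hr, hrl, -⟩ := three_lines A l l
  have hX := HasPoints.mkPoint_ax hrl (P := P)
  set X : P := HasPoints.mkPoint hrl with hXdef
  have hXA : X ≠ A := fun e => hA (e ▸ hX.2)
  set Q : Finset P := ((univ.filter (fun x : P => x ∈ r)).erase A).erase X with hQ
  have hQc : Q.card + 2 = order P L + 1 := by
    have a1 := card_on (P := P) r
    have a2 : ((univ.filter (fun x : P => x ∈ r)).erase A).card + 1 =
        (univ.filter (fun x : P => x ∈ r)).card :=
      card_erase_add_one (by rw [mem_filter]; exact ⟨mem_univ _, hr⟩)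
    have a3 : Q.card + 1 = ((univ.filter (fun x : P => x ∈ r)).erase A).card :=
      card_erase_add_one (by rw [mem_erase, mem_filter]; exact ⟨hXA, mem_univ _, hX.1⟩)
    omega
  have hQm : ∀ x, x ∈ Q ↔ x ∈ r ∧ x ≠ A ∧ x ≠ X := by
    intro x
    rw [hQ, mem_erase, mem_erase, mem_filter]
    simp only [mem_univ, true_and]
    tauto
  -- nothing in `Q` is on `l`
  have hQl : ∀ x ∈ Q, x ∉ l := by
    intro x hx hxl
    rw [hQm] at hx
    rcases eq_or_eq hx.1 hX.1 hxl hX.2 with h | h
    · exact hx.2.2 h
    · exact hrl h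
  have hinvQ : ∀ g : G, Persp g A l → ∀ x, g • x ∈ Q ↔ x ∈ Q := by
    intro g hg x
    rw [hQm, hQm]
    have e1 : g • A = A := by
      by_cases h1 : g = 1
      · rw [h1, one_smul]
      · exact (TaskFix.taskFix G P L hcol g A l hg h1).2.2.1
    have e2 : g • X = X := hg.ax X hX.2
    have e3 : g • r = r := hg.ce r hr
    have e4 : g • x ∈ r ↔ x ∈ r := by
      conv_lhs => rw [← e3]
      exact hcol.inc g x r
    have e5 : g • x = A ↔ x = A := by
      conv_lhs => rw [← e1]
      exact (MulAction.injective g).eq_iff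
    have e6 : g • x = X ↔ x = X := by
      conv_lhs => rw [← e2]
      exact (MulAction.injective g).eq_iff
    rw [e4, ne_eq, ne_eq, e5, e6]
  set H : Subgroup G := Subgroup.zpowers s with hH
  have hmemH : ∀ h : G, h ∈ H ↔ h = 1 ∨ h = s := by
    intro h
    constructor
    · intro hh
      rw [hH, Subgroup.mem_zpowers_iff] at hh
      obtain ⟨k, rfl⟩ := hh
      rcases Int.even_or_odd' k with ⟨m, hm | hm⟩
      · left
        rw [hm, zpow_mul, zpow_ofNat, pow_two, hs, one_zpow]
      · right
        rw [hm, zpow_add, zpow_mul, zpow_ofNat, pow_two, hs, one_zpow, one_mul, zpow_one]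
    · rintro (rfl | rfl)
      · exact H.one_mem
      · exact Subgroup.mem_zpowers _
  have hHc : (univ.filter (fun h : G => h ∈ H)).card = 2 := by
    have e : univ.filter (fun h : G => h ∈ H) = {1, s} := by
      ext h
      rw [mem_filter, mem_insert, mem_singleton, hmemH]
      simp
    rw [e, card_pair (Ne.symm hs1)]
  have hnrm : Nrm H z := by
    refine ⟨fun h hh => ?_, fun h hh => ?_⟩
    · rcases (hmemH h).1 hh with rfl | rfl
      · rw [mul_one, mul_inv_cancel]; exact H.one_mem
      · rw [← hc, mul_assoc, mul_inv_cancel, mul_one]; exact Subgroup.mem_zpowers _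
    · rcases (hmemH h).1 hh with rfl | rfl
      · rw [mul_one, inv_mul_cancel]; exact H.one_mem
      · rw [mul_assoc, hc, ← mul_assoc, inv_mul_cancel, one_mul]; exact Subgroup.mem_zpowers _
  -- classes of `Q`
  set A' : Finset (orbitRel.Quotient H P) := Q.image (cls H) with hA'
  have hclsQ : ∀ x, cls H x ∈ A' ↔ x ∈ Q := by
    intro x
    rw [hA', mem_image]
    constructor
    · rintro ⟨y, hy, hyx⟩
      obtain ⟨h, hh, rfl⟩ := (cls_eq H).1 hyx
      rcases (hmemH h).1 hh with rfl | rfl
      · rwa [one_smul] at hy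
      · exact (hinvQ _ hPs x).1 hy
    · intro hx
      exact ⟨x, hx, rfl⟩
  have hsz : ∀ α ∈ A', sz H α = 2 := by
    intro α hα
    obtain ⟨x, rfl⟩ := cls_surj H α
    have hxQ := (hclsQ x).1 hα
    have h1 := tc_mul H (x := x) (y := x) rfl
    rw [hHc] at h1
    have h2 : tc H x x = 1 := by
      unfold tc
      have e : univ.filter (fun h : G => h ∈ H ∧ h • x = x) = {1} := by
        ext h
        rw [mem_filter, mem_singleton, hmemH]
        constructor
        · rintro ⟨_, h3 | h3, h4⟩
          · exact h3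
          · exfalso
            subst h3
            rcases f1 x h4 with h5 | h5
            · exact ((hQm x).1 hxQ).2.1 h5
            · exact hQl x hxQ h5
        · rintro rfl
          exact ⟨mem_univ _, Or.inl rfl, one_smul _ _⟩
      rw [e, card_singleton]
    rw [h2, mul_one] at h1
    exact h1
  have hQA := card_points_of H A' 2 hsz
  have e1 : univ.filter (fun x : P => cls H x ∈ A') = Q := by
    ext x
    rw [mem_filter, hclsQ]
    simp
  rw [e1] at hQA
  -- `z` acts on the classes without fixed classes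
  have hbz : ∀ α : orbitRel.Quotient H P, bar H hnrm (bar H hnrm α) = α := fun α =>
    bar_sq H hnrm (by rw [pow_two, hz]; exact H.one_mem) α
  have h1 : (bar H hnrm : Equiv.Perm (orbitRel.Quotient H P)) ^ 2 ^ 1 = 1 := by
    ext α
    rw [pow_one, pow_two]
    exact hbz α
  have h2 := fix_mod (bar H hnrm : Equiv.Perm (orbitRel.Quotient H P)) Nat.prime_two h1
    (fun α => α ∈ A') (by
      intro α
      obtain ⟨x, rfl⟩ := cls_surj H α
      rw [bar_cls, hclsQ, hclsQ]
      exact hinvQ z hPz x)
  have h3 : Fintype.card {α // α ∈ A' ∧ bar H hnrm α = α} = 0 := by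
    rw [Fintype.card_eq_zero_iff]
    refine ⟨fun a => ?_⟩
    obtain ⟨α, ha, hb⟩ := a
    obtain ⟨x, rfl⟩ := cls_surj H α
    rw [hclsQ] at ha
    rw [bar_cls] at hb
    obtain ⟨h, hh, hx⟩ := (cls_eq H).1 hb
    have hn1 := ((hQm x).1 ha).2.1
    have hn2 := hQl x ha
    rcases (hmemH h).1 hh with rfl | rfl
    · rw [one_smul] at hx
      rcases g1 x hx.symm with h5 | h5
      · exact hn1 h5
      · exact hn2 h5
    · have h6 : (h * z) • x = x := by
        rw [mul_smul, ← hx, smul_smul, hs, one_smul]
      rcases k1 x h6 with h5 | h5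
      · exact hn1 h5
      · exact hn2 h5
  rw [h3, Fintype.card_coe] at h2
  have h4 : 2 ∣ A'.card := (Nat.modEq_zero_iff_dvd).1 h2
  obtain ⟨c, hc'⟩ := h4
  refine ⟨c, ?_⟩
  omega

theorem v4_fix (hcol : Col G P L) (h4 : order P L % 4 = 3) {s z : G} (hs1 : s ≠ 1) (hz1 : z ≠ 1)
    (hne : s ≠ z) (hs : s * s = 1) (hz : z * z = 1) (hc : s * z = z * s) (F : Finset P)
    (hF : ∀ x, x ∈ F ↔ s • x = x ∧ z • x = x) : F.card = 3 := by
  classical
  have hodd : Odd (order P L) := Nat.odd_iff.2 (by omega)
  have hns := not_square h4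
  obtain ⟨A, l, hA, hAl⟩ := invol hcol hodd hns hs1 hs
  obtain ⟨B, m, hB, hBm⟩ := invol hcol hodd hns hz1 hz
  obtain ⟨f1, -, f3, -⟩ := TaskFix.taskFix G P L hcol s A l hA hs1
  obtain ⟨g1, -, g3, -⟩ := TaskFix.taskFix G P L hcol z B m hB hz1
  have hzA : z • A = A := centre_fixed hcol hA hs1 hc
  have hfs := card_fixed_persp hcol hA hs1 hAl
  have hparity := par_fix (P := P) z hz (fun x => s • x = x) (fun x => by
      rw [smul_smul, hc, ← smul_smul]
      exact (MulAction.injective z).eq_iff) (univ.filter (fun x : P => s • x = x)) F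
      (fun x => by rw [mem_filter]; simp) hF
  rw [hfs] at hparity
  have hAF : A ∈ F := (hF A).2 ⟨f3, hzA⟩
  by_cases hlm : l = m
  · exfalso
    subst hlm
    have hAB : A = B := by
      rcases g1 A hzA with h | h
      · exact h
      · exact absurd h hAl
    subst hAB
    have := same_axis hcol hs1 hz1 hne hs hz hc hA hB hAl
    have := one_lt_order P L
    omega
  · have hX := HasPoints.mkPoint_ax hlm (P := P)
    set X : P := HasPoints.mkPoint hlm with hXdef
    have hXF : X ∈ F := (hF X).2 ⟨hA.ax X hX.1, hB.ax X hX.2⟩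
    have hXA : X ≠ A := fun e => hAl (e ▸ hX.1)
    have hsub : F ⊆ {X, A, B} := by
      intro x hx
      rw [hF] at hx
      rw [mem_insert, mem_insert, mem_singleton]
      rcases f1 x hx.1 with h | h
      · exact Or.inr (Or.inl h)
      · rcases g1 x hx.2 with h' | h'
        · exact Or.inr (Or.inr h')
        · left
          rcases eq_or_eq h hX.1 h' hX.2 with h5 | h5
          · exact h5
          · exact absurd h5 hlm
    have h1 := card_le_card hsub
    have h2 : ({X, A, B} : Finset P).card ≤ 3 := card_le_three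
    have h3 : ({X, A} : Finset P) ⊆ F := by
      intro x hx
      rw [mem_insert, mem_singleton] at hx
      rcases hx with rfl | rfl
      · exact hXF
      · exact hAF
    have h5 := card_le_card h3
    rw [card_pair hXA] at h5
    omega

end

end Pool.Agent.W825.KV
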