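import Mathlib
import Pool.Agent.W825.KV.Geo4

set_option autoImplicit false

/-!
# Planes of order 3 modulo 4 with a four-group
-/

namespace Pool.Agent.W825.KV

open Configuration Configuration.ProjectivePlane Configuration.Nondegenerate Finset MulAction
  Pool.Agent.H634R3.PPC Pool.Agent.H634R3.WG Pool.Agent.W825.FP

section

variable {G P L : Type} [Group G] [Fintype G] [Fintype P] [Fintype L] [Membership P L]
  [ProjectivePlane P L] [MulAction G P] [MulAction G L]

theorem zp_two {s : G} (hs : s * s = 1) (h : G) : h ∈ Subgroup.zpowers s ↔ h = 1 ∨ h = s := by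
  constructor
  · intro hh
    rw [Subgroup.mem_zpowers_iff] at hh
    obtain ⟨k, rfl⟩ := hh
    rcases Int.even_or_odd' k with ⟨m, hm | hm⟩
    · left
      rw [hm, zpow_mul, zpow_ofNat, pow_two, hs, one_zpow]
    · right
      rw [hm, zpow_add, zpow_mul, zpow_ofNat, pow_two, hs, one_zpow, one_mul, zpow_one]
  · rintro (rfl | rfl)
    · exact Subgroup.one_mem _
    · exact Subgroup.mem_zpowers _

open Classical in
theorem sz_dvd {X : Type} [Fintype X] [MulAction G X] (H : Subgroup G) (m : ℕ)
    (hm : (univ.filter (fun h : G => h ∈ H)).card = m) (α : orbitRel.Quotient H X) :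
    sz H α ∣ m := by
  obtain ⟨x, rfl⟩ := cls_surj H α
  rw [← hm, ← tc_mul H (x := x) (y := x) rfl]
  exact dvd_mul_right _ _

theorem v4_test (hcol : Col G P L) (h4 : order P L % 4 = 3) {s z : G} (hs1 : s ≠ 1) (hz1 : z ≠ 1)
    (hne : s ≠ z) (hs : s * s = 1) (hz : z * z = 1) (hc : s * z = z * s) {p : ℕ} (hp : p.Prime)
    (hp2 : p ≠ 2) {a : ℕ} (ha : Odd a) {u : ℕ} (hu : ¬ p ∣ u) (hN : order P L = p ^ a * u) :
    ∃ c t : ℕ, Odd c ∧ ((order P L % 8 = 3 ∧ Odd t) ∨ (order P L % 8 = 7 ∧ Even t)) ∧
      IsSquare ((-1) ^ t * 2 ^ c : ZMod p) := by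
  classical
  have hodd : Odd (order P L) := Nat.odd_iff.2 (by omega)
  have hns := not_square h4
  have hsz1 : s * z ≠ 1 := by
    intro e
    apply hne
    calc s = s * (z * z) := by rw [hz, mul_one]
      _ = z := by rw [← mul_assoc, e, one_mul]
  have hszsz : (s * z) * (s * z) = 1 := by
    calc (s * z) * (s * z) = s * (z * s) * z := by simp only [mul_assoc]
      _ = (s * s) * (z * z) := by rw [← hc]; simp only [mul_assoc]
      _ = 1 := by rw [hs, hz, mul_one]
  obtain ⟨A, l, hA, hAl⟩ := invol hcol hodd hns hs1 hs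
  obtain ⟨B, m, hB, hBm⟩ := invol hcol hodd hns hz1 hz
  obtain ⟨C, k, hC, hCk⟩ := invol hcol hodd hns hsz1 hszsz
  have c1 := card_fixed_persp hcol hA hs1 hAl
  have c2 := card_fixed_persp hcol hB hz1 hBm
  have c3 := card_fixed_persp hcol hC hsz1 hCk
  set F : Finset P := univ.filter (fun x => s • x = x ∧ z • x = x) with hF
  have hF3 : F.card = 3 := v4_fix hcol h4 hs1 hz1 hne hs hz hc F (fun x => by
    rw [hF, mem_filter]; simp)
  set H : Subgroup G := Subgroup.zpowers s with hH
  have hmemH : ∀ h : G, h ∈ H ↔ h = 1 ∨ h = s := zp_two hs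
  have hHc : (univ.filter (fun h : G => h ∈ H)).card = 2 := by
    have e : univ.filter (fun h : G => h ∈ H) = {1, s} := by
      ext h
      rw [mem_filter, mem_insert, mem_singleton, hmemH]
      simp
    rw [e, card_pair (Ne.symm hs1)]
  have hnrm : Nrm H z := by
    refine ⟨fun h hh => ?_, fun h hh => ?_⟩
    · rcases (hmemH h).1 hh with rfl | rfl
      · rw [mul_one, mul_inv_cancel]; exact H.one_mem
      · rw [← hc, mul_assoc, mul_inv_cancel, mul_one]; exact Subgroup.mem_zpowers _
    · rcases (hmemH h).1 hh with rfl | rfl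
      · rw [mul_one, inv_mul_cancel]; exact H.one_mem
      · rw [mul_assoc, hc, ← mul_assoc, inv_mul_cancel, one_mul]; exact Subgroup.mem_zpowers _
  have hsz : ∀ x : P, (sz H (cls H x) = 1 ↔ s • x = x) ∧ (sz H (cls H x) = 2 ↔ s • x ≠ x) := by
    intro x
    have h1 := tc_mul H (x := x) (y := x) rfl
    rw [hHc] at h1
    by_cases hx : s • x = x
    · have h2 : tc H x x = 2 := by
        unfold tc
        have e : univ.filter (fun h : G => h ∈ H ∧ h • x = x) = {1, s} := by
          ext h
          rw [mem_filter, mem_insert, mem_singleton, hmemH]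
          constructor
          · rintro ⟨_, h3, _⟩; exact h3
          · rintro (rfl | rfl)
            · exact ⟨mem_univ _, Or.inl rfl, one_smul _ _⟩
            · exact ⟨mem_univ _, Or.inr rfl, hx⟩
        rw [e, card_pair (Ne.symm hs1)]
      rw [h2] at h1
      have h3 : sz H (cls H x) = 1 := by omega
      rw [h3]
      exact ⟨⟨fun _ => hx, fun _ => rfl⟩, ⟨fun h => absurd h (by norm_num), fun h => absurd hx h⟩⟩
    · have h2 : tc H x x = 1 := by
        unfold tc
        have e : univ.filter (fun h : G => h ∈ H ∧ h • x = x) = {1} := by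
          ext h
          rw [mem_filter, mem_singleton, hmemH]
          constructor
          · rintro ⟨_, h3 | h3, h4⟩
            · exact h3
            · exact absurd (h3 ▸ h4) hx
          · rintro rfl
            exact ⟨mem_univ _, Or.inl rfl, one_smul _ _⟩
        rw [e, card_singleton]
      rw [h2, mul_one] at h1
      rw [h1]
      exact ⟨⟨fun h => absurd h (by norm_num), fun h => absurd h hx⟩, ⟨fun _ => hx, fun _ => rfl⟩⟩
  have hmv : ∀ x : P, bar H hnrm (cls H x) ≠ cls H x ↔ z • x ≠ x ∧ (s * z) • x ≠ x := by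
    intro x
    rw [bar_cls, ne_eq, cls_eq]
    constructor
    · intro h
      refine ⟨fun h1 => h ⟨1, H.one_mem, by rw [one_smul, h1]⟩, fun h1 => h ⟨s, Subgroup.mem_zpowers _, ?_⟩⟩
      rw [mul_smul] at h1
      conv_lhs => rw [← h1, smul_smul, hs, one_smul]
    · rintro ⟨h1, h2⟩ ⟨h, hh, hx⟩
      rcases (hmemH h).1 hh with rfl | rfl
      · rw [one_smul] at hx; exact h1 hx.symm
      · apply h2
        rw [mul_smul, ← hx, smul_smul, hs, one_smul]
  obtain ⟨c, d, t, q1, q2, q3, q4⟩ := real_count (plane_des P L) hcol.inc H hnrm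
    (by rw [pow_two, hz]; exact H.one_mem) hp 1 (by
      rw [mul_one]
      intro h
      exact hp2 ((Nat.prime_dvd_prime_iff_eq hp Nat.prime_two).1 h))
    (fun α => sz_dvd H 2 hHc α) (fun α => sz_dvd H 2 hHc α) (by
      intro α _
      have h1 := sz_dvd H 2 hHc α
      rcases (Nat.dvd_prime Nat.prime_two).1 h1 with h | h
      · exact Or.inl h
      · exact Or.inr h) ha hu hN
  simp only [hmv, mul_one] at q1 q2
  -- the counts
  have e1 : (univ.filter (fun x : P => (z • x ≠ x ∧ (s * z) • x ≠ x) ∧ sz H (cls H x) = 1)) =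
      (univ.filter (fun x : P => s • x = x)) \ F := by
    ext x
    rw [mem_filter, mem_sdiff, mem_filter, hF, mem_filter, (hsz x).1]
    constructor
    · rintro ⟨_, ⟨h1, h2⟩, h3⟩
      exact ⟨⟨mem_univ _, h3⟩, fun h5 => h1 h5.2.2⟩
    · rintro ⟨⟨_, h3⟩, h5⟩
      have h6 : z • x ≠ x := fun h6 => h5 ⟨mem_univ _, h3, h6⟩
      refine ⟨mem_univ _, ⟨h6, fun h7 => h6 ?_⟩, h3⟩
      have h8 : z • x = s • x := by
        rw [mul_smul] at h7
        conv_rhs => rw [← h7, smul_smul, hs, one_smul]
      rw [h8, h3]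
  have e2 : F ⊆ univ.filter (fun x : P => s • x = x) := by
    intro x hx
    rw [hF, mem_filter] at hx
    rw [mem_filter]
    exact ⟨mem_univ _, hx.2.1⟩
  have e3 : (univ.filter (fun x : P => (z • x ≠ x ∧ (s * z) • x ≠ x) ∧ sz H (cls H x) = 1)).card + 3 =
      order P L + 2 := by
    rw [e1, card_sdiff_of_subset e2, hF3, c1]
    have := one_lt_order P L
    omega
  -- the moved points
  have e4 : (univ.filter (fun x : P => (z • x ≠ x ∧ (s * z) • x ≠ x) ∧ sz H (cls H x) = 1)).card +
      (univ.filter (fun x : P => (z • x ≠ x ∧ (s * z) • x ≠ x) ∧ sz H (cls H x) = 2)).card =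
      (univ.filter (fun x : P => z • x ≠ x ∧ (s * z) • x ≠ x)).card := by
    rw [← card_union_of_disjoint]
    · congr 1
      ext x
      rw [mem_union, mem_filter, mem_filter, mem_filter]
      constructor
      · rintro (h | h)
        · exact ⟨h.1, h.2.1⟩
        · exact ⟨h.1, h.2.1⟩
      · rintro ⟨h1, h2⟩
        by_cases h3 : s • x = x
        · exact Or.inl ⟨h1, h2, (hsz x).1.2 h3⟩
        · exact Or.inr ⟨h1, h2, (hsz x).2.2 h3⟩
    · rw [disjoint_left]
      intro x h1 h2
      rw [mem_filter] at h1 h2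
      omega
  have e5 : (univ.filter (fun x : P => z • x ≠ x ∧ (s * z) • x ≠ x)).card +
      ((univ.filter (fun x : P => z • x = x)) ∪ (univ.filter (fun x : P => (s * z) • x = x))).card =
      order P L ^ 2 + order P L + 1 := by
    rw [← card_points P L, ← card_univ, ← card_union_of_disjoint]
    · congr 1
      ext x
      simp only [mem_union, mem_filter, mem_univ, true_and]
      tauto
    · rw [disjoint_left]
      intro x h1 h2
      simp only [mem_union, mem_filter, mem_univ, true_and] at h1 h2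
      tauto
  have e6 : ((univ.filter (fun x : P => z • x = x)) ∪
      (univ.filter (fun x : P => (s * z) • x = x))).card + 3 = (order P L + 2) + (order P L + 2) := by
    have h1 := card_union_add_card_inter (univ.filter (fun x : P => z • x = x))
      (univ.filter (fun x : P => (s * z) • x = x))
    have h2 : (univ.filter (fun x : P => z • x = x)) ∩ (univ.filter (fun x : P => (s * z) • x = x)) =
        F := by
      ext x
      rw [mem_inter, mem_filter, mem_filter, hF, mem_filter]
      constructor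
      · rintro ⟨⟨_, h3⟩, ⟨_, h5⟩⟩
        rw [mul_smul, h3] at h5
        exact ⟨mem_univ _, h5, h3⟩
      · rintro ⟨_, h3, h5⟩
        exact ⟨⟨mem_univ _, h5⟩, ⟨mem_univ _, by rw [mul_smul, h5, h3]⟩⟩
    rw [h2, hF3, c2, c3] at h1
    exact h1
  have hn2 := one_lt_order P L
  set n := order P L with hn
  have hc1 : n = 2 * c + 1 := by omega
  have hd : 4 * d = 4 * (c * c) := by
    have h1 : n ^ 2 = 4 * (c * c) + 4 * c + 1 := by rw [hc1]; ring
    omega
  have hd' : d = c * c := by omega
  have hcodd : c % 2 = 1 := by omega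
  refine ⟨c, t, Nat.odd_iff.2 hcodd, ?_, q4⟩
  rw [hd'] at q3
  have hc4 : c % 4 = 1 ∨ c % 4 = 3 := by omega
  rcases hc4 with h | h
  · left
    refine ⟨by omega, ?_⟩
    obtain ⟨m, hm⟩ : ∃ m, c = 4 * m + 1 := ⟨c / 4, by omega⟩
    rw [hm] at q3
    ring_nf at q3
    rw [Nat.odd_iff]
    omega
  · right
    refine ⟨by omega, ?_⟩
    obtain ⟨m, hm⟩ : ∃ m, c = 4 * m + 3 := ⟨c / 4, by omega⟩
    rw [hm] at q3
    ring_nf at q3
    rw [Nat.even_iff]
    omega

end

end Pool.Agent.W825.KV
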