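import Mathlib
import Pool.Agent.W825.KV.Four

set_option autoImplicit false

/-!
# Planes of order 3 modulo 4 with a large 2-group having one involution
-/

namespace Pool.Agent.W825.KV

open Configuration Configuration.ProjectivePlane Configuration.Nondegenerate Finset MulAction
  Pool.Agent.H634R3.PPC Pool.Agent.H634R3.WG Pool.Agent.W825.FP

section

variable {G P L : Type} [Group G] [Fintype G] [Fintype P] [Fintype L] [Membership P L]
  [ProjectivePlane P L] [MulAction G P] [MulAction G L]

omit [Fintype G] in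
/-- in a 2-group with one involution `a` every element outside `{1, a}` has a power whose square
is `a` -/
theorem pow_four [Finite G] (hG : IsPGroup 2 G) {a : G}
    (huniq : ∀ s : G, s ≠ 1 → s * s = 1 → s = a) (h : G) (h1 : h ≠ 1) (h2 : h ≠ a) :
    ∃ k : ℕ, h ^ k * h ^ k = a := by
  obtain ⟨j, hj⟩ := hG.exists_orderOf_eq_pow h
  have hj2 : 2 ≤ j := by
    by_contra hcon
    push Not at hcon
    interval_cases j
    · rw [pow_zero, orderOf_eq_one_iff] at hj
      exact h1 hj
    · apply h2
      apply huniq h h1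
      rw [← pow_two, ← pow_one 2, ← hj]
      exact pow_orderOf_eq_one h
  refine ⟨2 ^ (j - 2), ?_⟩
  have e1 : h ^ 2 ^ (j - 2) * h ^ 2 ^ (j - 2) = h ^ 2 ^ (j - 1) := by
    rw [← pow_add, ← two_mul, ← pow_succ']
    congr 2
    omega
  rw [e1]
  apply huniq
  · intro e
    have h3 := orderOf_dvd_of_pow_eq_one e
    rw [hj, Nat.pow_dvd_pow_iff_le_right (by norm_num)] at h3
    omega
  · rw [← pow_add, ← two_mul, ← pow_succ']
    have : j - 1 + 1 = j := by omega
    rw [this, ← hj]
    exact pow_orderOf_eq_one h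

omit [Fintype G] in
theorem pow_invol [Finite G] (hG : IsPGroup 2 G) {a : G}
    (huniq : ∀ s : G, s ≠ 1 → s * s = 1 → s = a) (h : G) (h1 : h ≠ 1) :
    ∃ k : ℕ, h ^ k = a := by
  by_cases h2 : h = a
  · exact ⟨1, by rw [pow_one, h2]⟩
  · obtain ⟨k, hk⟩ := pow_four hG huniq h h1 h2
    exact ⟨k + k, by rw [pow_add, hk]⟩

omit [Fintype G] [Fintype P] in
theorem smul_pow_fixed {h : G} {x : P} (hh : h • x = x) (k : ℕ) : h ^ k • x = x := by
  induction k with
  | zero => rw [pow_zero, one_smul]
  | succ k ih => rw [pow_succ, mul_smul, hh, ih]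

/-- an element of order four fixes no point of the axis of its square -/
theorem four_free (hcol : Col G P L) (h4 : order P L % 4 = 3) {a y : G} {A : P} {l : L}
    (hP : Persp a A l) (ha1 : a ≠ 1) (ha : a * a = 1) (hAl : A ∉ l) (hy : y * y = a) {x : P}
    (hxl : x ∈ l) (hx : y • x = x) : False := by
  classical
  obtain ⟨f1, f2, f3, f4⟩ := TaskFix.taskFix G P L hcol a A l hP ha1
  have hyA : y • A = A := centre_fixed hcol hP ha1 (by rw [← hy, mul_assoc])
  have hxA : x ≠ A := fun e => hAl (e ▸ hxl)
  have hr := HasLines.mkLine_ax hxA (L := L)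
  set r : L := HasLines.mkLine hxA with hrdef
  have hyr : y • r = r := by
    have h1 := (hcol.inc y x r).2 hr.1
    have h2 := (hcol.inc y A r).2 hr.2
    rw [hx] at h1
    rw [hyA] at h2
    exact (eq_or_eq h1 h2 hr.1 hr.2).resolve_left hxA
  have hrl : r ≠ l := fun e => hAl (e ▸ hr.2)
  set Q : Finset P := ((univ.filter (fun z : P => z ∈ r)).erase A).erase x with hQ
  have hQc : Q.card + 2 = order P L + 1 := by
    have a1 := card_on (P := P) r
    have a2 : ((univ.filter (fun z : P => z ∈ r)).erase A).card + 1 =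
        (univ.filter (fun z : P => z ∈ r)).card :=
      card_erase_add_one (by rw [mem_filter]; exact ⟨mem_univ _, hr.2⟩)
    have a3 : Q.card + 1 = ((univ.filter (fun z : P => z ∈ r)).erase A).card :=
      card_erase_add_one (by rw [mem_erase, mem_filter]; exact ⟨hxA, mem_univ _, hr.1⟩)
    omega
  have hQm : ∀ z, z ∈ Q ↔ z ∈ r ∧ z ≠ A ∧ z ≠ x := by
    intro z
    rw [hQ, mem_erase, mem_erase, mem_filter]
    simp only [mem_univ, true_and]
    tauto
  have hfree : ∀ z ∈ Q, a • z ≠ z := by
    intro z hz he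
    rw [hQm] at hz
    rcases f1 z he with h | h
    · exact hz.2.1 h
    · rcases eq_or_eq hz.1 hr.1 h hxl with h5 | h5
      · exact hz.2.2 h5
      · exact hrl h5
  have hinv : ∀ z, y • z ∈ Q ↔ z ∈ Q := by
    intro z
    rw [hQm, hQm]
    have e4 : y • z ∈ r ↔ z ∈ r := by
      conv_lhs => rw [← hyr]
      exact hcol.inc y z r
    have e5 : y • z = A ↔ z = A := by
      conv_lhs => rw [← hyA]
      exact (MulAction.injective y).eq_iff
    have e6 : y • z = x ↔ z = x := by
      conv_lhs => rw [← hx]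
      exact (MulAction.injective y).eq_iff
    rw [e4, ne_eq, ne_eq, e5, e6]
  set H : Subgroup G := Subgroup.zpowers y with hH
  have ho : orderOf y = 4 := by
    have : orderOf y = 2 ^ 2 := by
      apply orderOf_eq_prime_pow
      · rw [pow_one, pow_two, hy]; exact ha1
      · have : (2 : ℕ) ^ (1 + 1) = 2 * 2 := by norm_num
        rw [this, pow_mul, pow_two y, hy, pow_two, ha]
    rw [this]; norm_num
  have hHc : (univ.filter (fun h : G => h ∈ H)).card = 4 := by
    have h1 : Nat.card H = 4 := by rw [hH, Nat.card_zpowers, ho]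
    rw [← h1, Nat.card_eq_fintype_card, Fintype.card_subtype]
  have hpw : ∀ h ∈ H, ∃ k : ℕ, y ^ k = h := by
    intro h hh
    have := (mem_powers_iff_mem_zpowers (x := y) (y := h)).2 hh
    exact this
  have hinvk : ∀ (k : ℕ) z, y ^ k • z ∈ Q ↔ z ∈ Q := by
    intro k
    induction k with
    | zero => intro z; rw [pow_zero, one_smul]
    | succ k ih => intro z; rw [pow_succ', mul_smul, hinv, ih]
  set A' : Finset (orbitRel.Quotient H P) := Q.image (cls H) with hA'
  have hclsQ : ∀ z, cls H z ∈ A' ↔ z ∈ Q := by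
    intro z
    rw [hA', mem_image]
    constructor
    · rintro ⟨w, hw, hwz⟩
      obtain ⟨h, hh, rfl⟩ := (cls_eq H).1 hwz
      obtain ⟨k, rfl⟩ := hpw h hh
      exact (hinvk k z).1 hw
    · intro hz
      exact ⟨z, hz, rfl⟩
  have hsz : ∀ α ∈ A', sz H α = 4 := by
    intro α hα
    obtain ⟨z, rfl⟩ := cls_surj H α
    have hzQ := (hclsQ z).1 hα
    have h1 := tc_mul H (x := z) (y := z) rfl
    rw [hHc] at h1
    have h2 : tc H z z = 1 := by
      unfold tc
      have e : univ.filter (fun h : G => h ∈ H ∧ h • z = z) = {1} := by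
        ext h
        rw [mem_filter, mem_singleton]
        constructor
        · rintro ⟨_, h3, h5⟩
          obtain ⟨k, rfl⟩ := hpw h h3
          -- reduce `k` modulo 4
          have hk : y ^ k = y ^ (k % 4) := by rw [← ho, pow_mod_orderOf]
          rw [hk] at h5 ⊢
          have hk4 : k % 4 = 0 ∨ k % 4 = 1 ∨ k % 4 = 2 ∨ k % 4 = 3 := by omega
          have haz := hfree z hzQ
          rcases hk4 with h6 | h6 | h6 | h6 <;> rw [h6] at h5 ⊢
          · rw [pow_zero]
          · exfalso
            apply haz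
            rw [pow_one] at h5
            rw [← hy, mul_smul, h5, h5]
          · exfalso
            apply haz
            rw [pow_two, hy] at h5
            exact h5
          · exfalso
            apply haz
            have h7 : (y ^ 3 * y ^ 3) • z = z := by rw [mul_smul, h5, h5]
            have h8 : y ^ 3 * y ^ 3 = a := by
              calc y ^ 3 * y ^ 3 = (y * y) * (y * y) * (y * y) := by
                    simp only [pow_succ, pow_zero, one_mul, mul_assoc]
                _ = a := by rw [hy, ha, one_mul]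
            rwa [h8] at h7
        · rintro rfl
          exact ⟨mem_univ _, H.one_mem, one_smul _ _⟩
      rw [e, card_singleton]
    rw [h2, mul_one] at h1
    exact h1
  have hQA := card_points_of H A' 4 hsz
  have e1 : univ.filter (fun z : P => cls H z ∈ A') = Q := by
    ext z
    rw [mem_filter, hclsQ]
    simp
  rw [e1] at hQA
  have := one_lt_order P L
  omega

theorem uniq_test (hcol : Col G P L) (h4 : order P L % 4 = 3) (hG : IsPGroup 2 G)
    (huniq : ∀ s t : G, s ≠ 1 → t ≠ 1 → s * s = 1 → t * t = 1 → s = t)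
    (hnd : ¬ Nat.card G ∣ order P L + 1) {p : ℕ} (hp : p.Prime)
    (hp2 : p ≠ 2) {a : ℕ} (ha : Odd a) {u : ℕ} (hu : ¬ p ∣ u) (hN : order P L = p ^ a * u) :
    ∃ c t : ℕ, Odd c ∧ ((order P L % 8 = 3 ∧ Odd t) ∨ (order P L % 8 = 7 ∧ Even t)) ∧
      IsSquare ((-1) ^ t * 2 ^ c : ZMod p) := by
  classical
  have hodd : Odd (order P L) := Nat.odd_iff.2 (by omega)
  have hns := not_square h4
  obtain ⟨e, he⟩ := hG.exists_card_eq
  have he3 : 3 ≤ e := by
    by_contra hcon
    push Not at hcon
    apply hnd
    rw [he]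
    have h1 : 2 ^ e ∣ 4 := by
      interval_cases e <;> norm_num
    exact h1.trans (by omega)
  -- a subgroup of index two
  obtain ⟨K, hK⟩ := Sylow.exists_subgroup_card_pow_prime 2 (G := G) (n := e - 1) (by
    rw [he]; exact pow_dvd_pow _ (by omega))
  have hK2 : Nat.card K = 2 * 2 ^ (e - 2) := by
    rw [hK, ← pow_succ']; congr 1; omega
  have hidx : K.index = 2 := by
    have h1 := K.card_mul_index
    rw [he, hK] at h1
    have h2 : 2 ^ e = 2 ^ (e - 1) * 2 := by rw [← pow_succ]; congr 1; omega
    rw [h2] at h1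
    exact Nat.eq_of_mul_eq_mul_left (by positivity) h1
  have hKn : K.Normal := Subgroup.normal_of_index_eq_two hidx
  obtain ⟨g, hg⟩ : ∃ g, g ∉ K := by
    by_contra hcon
    push Not at hcon
    have : K = ⊤ := by
      rw [Subgroup.eq_top_iff']; exact hcon
    rw [this, Subgroup.index_top] at hidx
    omega
  have hg2 : g ^ 2 ∈ K := Subgroup.sq_mem_of_index_two hidx g
  have hnrm : Nrm K g := ⟨fun h hh => hKn.conj_mem h hh g, fun h hh => by
    have := hKn.conj_mem h hh g⁻¹
    rwa [inv_inv] at this⟩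
  -- the involution
  have hKp : Fact (Nat.Prime 2) := ⟨Nat.prime_two⟩
  obtain ⟨a', ha'⟩ := exists_prime_orderOf_dvd_card' (G := K) 2 (by
    rw [hK2]; exact dvd_mul_right _ _)
  set s : G := (a' : G) with hs
  have hs1 : s ≠ 1 := by
    intro h
    have h1 : a' = 1 := Subtype.ext h
    rw [h1, orderOf_one] at ha'
    omega
  have hss : s * s = 1 := by
    have h1 : a' ^ 2 = 1 := by rw [← ha']; exact pow_orderOf_eq_one a'
    have h2 := congrArg (Subtype.val) h1
    rw [pow_two] at h2
    exact h2
  have hsK : s ∈ K := a'.2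
  have hall : ∀ t : G, t ≠ 1 → t * t = 1 → t = s := fun t h1 h2 => huniq t s h1 hs1 h2 hss
  have hcen : ∀ h : G, s * h = h * s := by
    intro h
    have h1 : h * s * h⁻¹ = s := by
      apply hall
      · intro h2
        apply hs1
        have h3 : h * s * h⁻¹ = h * 1 * h⁻¹ := by rw [h2]; simp
        exact mul_left_cancel (mul_right_cancel h3)
      · calc h * s * h⁻¹ * (h * s * h⁻¹) = h * (s * s) * h⁻¹ := by group
          _ = 1 := by rw [hss]; simp
    calc s * h = (h * s * h⁻¹) * h := by rw [h1]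
      _ = h * s := by group
  obtain ⟨A, l, hA, hAl⟩ := invol hcol hodd hns hs1 hss
  obtain ⟨f1, f2, f3, f4⟩ := TaskFix.taskFix G P L hcol s A l hA hs1
  have hAfix : ∀ h : G, h • A = A := fun h => centre_fixed hcol hA hs1 (hcen h)
  -- stabilisers
  have hst1 : ∀ x : P, x ≠ A → x ∉ l → ∀ h : G, h • x = x → h = 1 := by
    intro x hx1 hx2 h hh
    by_contra hne
    obtain ⟨k, hk⟩ := pow_invol hG hall h hne
    have h1 : s • x = x := by
      rw [← hk]
      exact smul_pow_fixed hh k
    rcases f1 x h1 with h2 | h2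
    · exact hx1 h2
    · exact hx2 h2
  have hst2 : ∀ x : P, x ∈ l → ∀ h : G, h • x = x → h = 1 ∨ h = s := by
    intro x hx h hh
    by_contra hne
    rw [not_or] at hne
    obtain ⟨k, hk⟩ := pow_four hG hall h hne.1 hne.2
    exact four_free hcol h4 hA hs1 hss hAl hk hx (smul_pow_fixed hh k)
  have hKc : (univ.filter (fun h : G => h ∈ K)).card = 2 * 2 ^ (e - 2) := by
    rw [← hK2, Nat.card_eq_fintype_card, Fintype.card_subtype]
  have hsz : ∀ x : P, (x ∈ l → sz K (cls K x) = 2 ^ (e - 2)) ∧
      (x ∉ l → x ≠ A → sz K (cls K x) = 2 * 2 ^ (e - 2)) := by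
    intro x
    have h1 := tc_mul K (x := x) (y := x) rfl
    rw [hKc] at h1
    constructor
    · intro hx
      have h2 : tc K x x = 2 := by
        unfold tc
        have e : univ.filter (fun h : G => h ∈ K ∧ h • x = x) = {1, s} := by
          ext h
          rw [mem_filter, mem_insert, mem_singleton]
          constructor
          · rintro ⟨_, _, h3⟩; exact hst2 x hx h h3
          · rintro (rfl | rfl)
            · exact ⟨mem_univ _, K.one_mem, one_smul _ _⟩
            · exact ⟨mem_univ _, hsK, hA.ax x hx⟩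
        rw [e, card_pair (Ne.symm hs1)]
      rw [h2] at h1
      omega
    · intro hx1 hx2
      have h2 : tc K x x = 1 := by
        unfold tc
        have e : univ.filter (fun h : G => h ∈ K ∧ h • x = x) = {1} := by
          ext h
          rw [mem_filter, mem_singleton]
          constructor
          · rintro ⟨_, _, h3⟩; exact hst1 x hx2 hx1 h h3
          · rintro rfl
            exact ⟨mem_univ _, K.one_mem, one_smul _ _⟩
        rw [e, card_singleton]
      rw [h2, mul_one] at h1
      exact h1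
  have hmv : ∀ x : P, bar K hnrm (cls K x) ≠ cls K x ↔ x ≠ A := by
    intro x
    rw [bar_cls, ne_eq, cls_eq, not_iff_not]
    constructor
    · rintro ⟨h, hh, hx⟩
      by_contra hxA
      have h1 : (h⁻¹ * g) • x = x := by rw [mul_smul, ← hx, inv_smul_smul]
      have h2 : h⁻¹ * g = 1 ∨ h⁻¹ * g = s := by
        by_cases hxl : x ∈ l
        · exact hst2 x hxl _ h1
        · exact Or.inl (hst1 x hxA hxl _ h1)
      apply hg
      have h3 : h⁻¹ * g ∈ K := by
        rcases h2 with h2 | h2
        · rw [h2]; exact K.one_mem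
        · rw [h2]; exact hsK
      have h4 := K.mul_mem hh h3
      rwa [mul_inv_cancel_left] at h4
    · rintro rfl
      exact ⟨1, K.one_mem, by rw [one_smul, hAfix]⟩
  have hpos : 0 < 2 ^ (e - 2) := by positivity
  have hp2' : ¬ p ∣ 2 * 2 ^ (e - 2) := by
    intro h
    rw [← pow_succ'] at h
    exact hp2 ((Nat.prime_dvd_prime_iff_eq hp Nat.prime_two).1 (hp.dvd_of_dvd_pow h))
  obtain ⟨c, d, t, q1, q2, q3, q4⟩ := real_count (plane_des P L) hcol.inc K hnrm hg2 hp
    (2 ^ (e - 2)) hp2' (fun α => sz_dvd K _ hKc α) (fun α => sz_dvd K _ hKc α) (by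
      intro α hα
      obtain ⟨x, rfl⟩ := cls_surj K α
      rw [hmv] at hα
      by_cases hx : x ∈ l
      · exact Or.inl ((hsz x).1 hx)
      · exact Or.inr ((hsz x).2 hx hα)) ha hu hN
  simp only [hmv] at q1 q2
  have e1 : (univ.filter (fun x : P => x ≠ A ∧ sz K (cls K x) = 2 ^ (e - 2))).card =
      order P L + 1 := by
    rw [← card_on (P := P) l]
    congr 1
    ext x
    rw [mem_filter, mem_filter]
    constructor
    · rintro ⟨_, h1, h2⟩
      refine ⟨mem_univ _, ?_⟩
      by_contra h3
      have := (hsz x).2 h3 h1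
      omega
    · rintro ⟨_, h1⟩
      exact ⟨mem_univ _, fun h => hAl (h ▸ h1), (hsz x).1 h1⟩
  have e2 : (univ.filter (fun x : P => x ≠ A ∧ sz K (cls K x) = 2 ^ (e - 2))).card +
      (univ.filter (fun x : P => x ≠ A ∧ sz K (cls K x) = 2 * 2 ^ (e - 2))).card + 1 =
      order P L ^ 2 + order P L + 1 := by
    rw [← card_points P L, ← card_univ, ← card_erase_add_one (mem_univ A), ← card_union_of_disjoint]
    · congr 2
      ext x
      rw [mem_union, mem_filter, mem_filter, mem_erase]
      constructor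
      · rintro (h | h)
        · exact ⟨h.2.1, mem_univ _⟩
        · exact ⟨h.2.1, mem_univ _⟩
      · rintro ⟨h1, _⟩
        by_cases h3 : x ∈ l
        · exact Or.inl ⟨mem_univ _, h1, (hsz x).1 h3⟩
        · exact Or.inr ⟨mem_univ _, h1, (hsz x).2 h3 h1⟩
    · rw [disjoint_left]
      intro x h1 h2
      rw [mem_filter] at h1 h2
      omega
  rw [q1] at e1
  rw [q1, q2] at e2
  set n := order P L with hn
  set k := 2 ^ (e - 2) with hk
  have hk2 : 2 ^ e = 4 * k := by
    rw [hk]
    have : (4 : ℕ) = 2 ^ 2 := by norm_num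
    rw [this, ← pow_add]; congr 1; omega
  -- arithmetic
  have hcodd : c % 2 = 1 := by
    by_contra hcon
    apply hnd
    rw [he, hk2, ← e1]
    obtain ⟨m, hm⟩ : ∃ m, c = 2 * m := ⟨c / 2, by omega⟩
    rw [hm]
    exact ⟨m, by ring⟩
  have hn1 : n = 2 * (k * c) - 1 := by
    have : k * (2 * c) = 2 * (k * c) := by ring
    omega
  have hkc : 0 < k * c := Nat.mul_pos hpos (by omega)
  have hd : d + c = k * (c * c) := by
    -- n ^ 2 + n = 2kc + 4kd
    have h1 : (n : ℤ) + 1 = 2 * (k * c) := by
      have := e1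
      zify at this
      linarith
    have h2 : (n : ℤ) ^ 2 + n = 2 * (k * c) + 4 * (k * d) := by
      have := e2
      zify at this
      linarith
    have h3 : (n : ℤ) = 2 * (k * c) - 1 := by linarith
    rw [h3] at h2
    have hk0 : (k : ℤ) ≠ 0 := by
      have : (0 : ℤ) < k := by exact_mod_cast hpos
      exact this.ne'
    have h4 : (4 * k : ℤ) * (d + c) = (4 * k : ℤ) * (k * (c * c)) := by linarith
    have h5 := mul_left_cancel₀ (mul_ne_zero (by norm_num) hk0) h4
    exact_mod_cast h5
  have h2t : 2 * t = k * (c * c) := by omega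
  have hcc : (c * c) % 2 = 1 := by rw [Nat.mul_mod, hcodd]
  refine ⟨c, t, Nat.odd_iff.2 hcodd, ?_, q4⟩
  by_cases he3' : e = 3
  · left
    have hk' : k = 2 := by rw [hk, he3']; norm_num
    rw [hk'] at h2t hn1
    refine ⟨by omega, ?_⟩
    rw [Nat.odd_iff]
    omega
  · right
    have hk' : k = 4 * 2 ^ (e - 4) := by
      rw [hk]
      have : (4 : ℕ) = 2 ^ 2 := by norm_num
      rw [this, ← pow_add]; congr 1; omega
    have h5 : k * c = 4 * (2 ^ (e - 4) * c) := by rw [hk']; ring
    have h6 : k * (c * c) = 4 * (2 ^ (e - 4) * (c * c)) := by rw [hk']; ring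
    refine ⟨by omega, ?_⟩
    rw [Nat.even_iff]
    omega

end

end Pool.Agent.W825.KV
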