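import Mathlib
import Pool.Agent.W825.KV.Uniq

set_option autoImplicit false

/-!
# The arithmetic of orders 3 modulo 4 of planes with a large 2-group
-/

namespace Pool.Agent.W825.KV

open Configuration Configuration.ProjectivePlane Configuration.Nondegenerate Finset MulAction
  Pool.Agent.H634R3.PPC Pool.Agent.H634R3.WG Pool.Agent.W825.FP

/-- the last step -/
theorem finish {n c t p : ℕ} (hp : p.Prime) (hp2 : p ≠ 2) (hc : Odd c)
    (ht : (n % 8 = 3 ∧ Odd t) ∨ (n % 8 = 7 ∧ Even t))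
    (hsq : IsSquare ((-1) ^ t * 2 ^ c : ZMod p)) :
    (n % 8 = 3 → p % 8 = 1 ∨ p % 8 = 3) ∧ (n % 8 = 7 → p % 8 = 1 ∨ p % 8 = 7) := by
  have : Fact p.Prime := ⟨hp⟩
  obtain ⟨i, hi⟩ := hc
  have h2 : (2 : ZMod p) ≠ 0 := by
    intro h
    have h1 : ((2 : ℕ) : ZMod p) = 0 := by exact_mod_cast h
    rw [ZMod.natCast_eq_zero_iff] at h1
    exact hp2 ((Nat.prime_dvd_prime_iff_eq hp Nat.prime_two).1 h1)
  have h3 : IsSquare ((-1) ^ t * 2 : ZMod p) := by
    obtain ⟨w, hw⟩ := hsq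
    refine ⟨w / 2 ^ i, ?_⟩
    rw [div_mul_div_comm, ← hw, hi, eq_div_iff (mul_ne_zero (pow_ne_zero _ h2) (pow_ne_zero _ h2))]
    ring
  rcases ht with ⟨h8, ht⟩ | ⟨h8, ht⟩
  · rw [ht.neg_one_pow] at h3
    have h4 : IsSquare (-2 : ZMod p) := by
      have e : (-1 * 2 : ZMod p) = -2 := by ring
      rwa [e] at h3
    rw [ZMod.exists_sq_eq_neg_two_iff hp2] at h4
    exact ⟨fun _ => h4, fun h => by omega⟩
  · rw [ht.neg_one_pow, one_mul, ZMod.exists_sq_eq_two_iff hp2] at h3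
    exact ⟨fun h => by omega, fun _ => h3⟩

section

variable {G P L : Type} [Group G] [Fintype G] [Fintype P] [Fintype L] [Membership P L]
  [ProjectivePlane P L] [MulAction G P] [MulAction G L]

theorem two_group_test (hcol : Col G P L) (h4 : order P L % 4 = 3) (hG : IsPGroup 2 G)
    (hbad : ¬ Nat.card G ∣ order P L + 1 ∨ ∃ s t : G, s ≠ t ∧ orderOf s = 2 ∧ orderOf t = 2)
    {p : ℕ} (hp : p.Prime) {a : ℕ} (ha : Odd a) {u : ℕ} (hu : ¬ p ∣ u)
    (hN : order P L = p ^ a * u) :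
    (order P L % 8 = 3 → p % 8 = 1 ∨ p % 8 = 3) ∧
      (order P L % 8 = 7 → p % 8 = 1 ∨ p % 8 = 7) := by
  classical
  have hp2 : p ≠ 2 := by
    rintro rfl
    have h1 : 2 ∣ order P L := by
      rw [hN]
      exact (dvd_pow_self 2 (Nat.pos_of_ne_zero (by rintro rfl; exact absurd ha (by decide))).ne').mul_right _
    omega
  have ord2 : ∀ s : G, orderOf s = 2 ↔ s ≠ 1 ∧ s * s = 1 := by
    intro s
    constructor
    · intro h
      refine ⟨fun h1 => ?_, ?_⟩
      · rw [h1, orderOf_one] at h; omega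
      · rw [← pow_two, ← h]; exact pow_orderOf_eq_one s
    · rintro ⟨h1, h2⟩
      exact orderOf_eq_prime (by rw [pow_two, h2]) h1
  by_cases huniq : ∀ s t : G, s ≠ 1 → t ≠ 1 → s * s = 1 → t * t = 1 → s = t
  · have hnd : ¬ Nat.card G ∣ order P L + 1 := by
      rcases hbad with h | ⟨s, t, hst, hs, ht⟩
      · exact h
      · rw [ord2] at hs ht
        exact absurd (huniq s t hs.1 ht.1 hs.2 ht.2) hst
    obtain ⟨c, t, hc, ht, hsq⟩ := uniq_test hcol h4 hG huniq hnd hp hp2 ha hu hN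
    exact finish hp hp2 hc ht hsq
  · push Not at huniq
    obtain ⟨s, t, hs1, ht1, hs, ht, hst⟩ := huniq
    have : Nontrivial G := ⟨s, t, hst⟩
    have hcn : Nontrivial (Subgroup.center G) := hG.center_nontrivial
    have hG2 : IsPGroup 2 (Subgroup.center G) := hG.to_subgroup _
    have : Fact (Nat.Prime 2) := ⟨Nat.prime_two⟩
    obtain ⟨k, hk0, hk⟩ := hG2.nontrivial_iff_card.1 hcn
    obtain ⟨z', hz'⟩ := exists_prime_orderOf_dvd_card' (G := Subgroup.center G) 2 (by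
      rw [hk]; exact dvd_pow_self 2 hk0.ne')
    have hz2 : orderOf (z' : G) = 2 := by rw [← hz']; exact Subgroup.orderOf_coe z'
    rw [ord2] at hz2
    have hzc : ∀ g : G, g * (z' : G) = z' * g := fun g => Subgroup.mem_center_iff.1 z'.2 g
    have key : ∀ s : G, s ≠ 1 → s * s = 1 → s ≠ z' →
        (order P L % 8 = 3 → p % 8 = 1 ∨ p % 8 = 3) ∧
          (order P L % 8 = 7 → p % 8 = 1 ∨ p % 8 = 7) := by
      intro s h1 h2 h3
      obtain ⟨c, t, hc, ht, hsq⟩ := v4_test hcol h4 h1 hz2.1 h3 h2 hz2.2 (hzc s) hp hp2 ha hu hN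
      exact finish hp hp2 hc ht hsq
    by_cases h : s = z'
    · exact key t ht1 ht (fun h' => hst (h.trans h'.symm))
    · exact key s hs1 hs h

end

end Pool.Agent.W825.KV
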