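import Mathlib

set_option autoImplicit false

/-!
# Integers of the forms `x ^ 2 + 2 y ^ 2` and `x ^ 2 - 2 y ^ 2`
-/

namespace Pool.Agent.W825.KV

/-- `n` is of the form `x ^ 2 + D y ^ 2` -/
def Rp (D : ℤ) (n : ℕ) : Prop := ∃ x y : ℤ, (n : ℤ) = x ^ 2 + D * y ^ 2

theorem Rp.one (D : ℤ) : Rp D 1 := ⟨1, 0, by norm_num⟩

theorem Rp.mul {D : ℤ} {m n : ℕ} (hm : Rp D m) (hn : Rp D n) : Rp D (m * n) := by
  obtain ⟨x, y, h1⟩ := hm
  obtain ⟨z, w, h2⟩ := hn
  refine ⟨x * z - D * (y * w), x * w + y * z, ?_⟩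
  rw [Nat.cast_mul, h1, h2]
  ring

theorem thue {p : ℕ} (hp : p.Prime) (s : ZMod p) : ∃ x y : ℤ, (x ≠ 0 ∨ y ≠ 0) ∧ x ^ 2 < p ∧
    y ^ 2 < p ∧ (x : ZMod p) = s * y := by
  have : Fact p.Prime := ⟨hp⟩
  set k := Nat.sqrt p with hk
  have h1 : p < (k + 1) * (k + 1) := Nat.lt_succ_sqrt p
  have h2 : k * k ≤ p := Nat.sqrt_le p
  have h3 : k * k ≠ p := by
    intro h
    have h4 : IsSquare p := ⟨k, h.symm⟩
    exact hp.prime.irreducible.not_isSquare h4
  have h4 : k * k < p := lt_of_le_of_ne h2 h3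
  let f : Fin (k + 1) × Fin (k + 1) → ZMod p := fun a => ((a.1 : ℕ) : ZMod p) - s * ((a.2 : ℕ) : ZMod p)
  have h5 : Fintype.card (ZMod p) < Fintype.card (Fin (k + 1) × Fin (k + 1)) := by
    rw [ZMod.card, Fintype.card_prod, Fintype.card_fin]
    exact h1
  obtain ⟨a, b, hab, hf⟩ := Fintype.exists_ne_map_eq_of_card_lt f h5
  refine ⟨(a.1 : ℤ) - (b.1 : ℤ), (a.2 : ℤ) - (b.2 : ℤ), ?_, ?_, ?_, ?_⟩
  · by_contra hcon
    push Not at hcon
    apply hab
    apply Prod.ext
    · apply Fin.ext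
      have := hcon.1
      omega
    · apply Fin.ext
      have := hcon.2
      omega
  · have e1 : (a.1 : ℤ) ≤ k := by have := a.1.2; omega
    have e2 : (b.1 : ℤ) ≤ k := by have := b.1.2; omega
    have e3 : (0 : ℤ) ≤ (a.1 : ℤ) := by positivity
    have e4 : (0 : ℤ) ≤ (b.1 : ℤ) := by positivity
    have e5 : (k : ℤ) * k < p := by exact_mod_cast h4
    nlinarith
  · have e1 : (a.2 : ℤ) ≤ k := by have := a.2.2; omega
    have e2 : (b.2 : ℤ) ≤ k := by have := b.2.2; omega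
    have e3 : (0 : ℤ) ≤ (a.2 : ℤ) := by positivity
    have e4 : (0 : ℤ) ≤ (b.2 : ℤ) := by positivity
    have e5 : (k : ℤ) * k < p := by exact_mod_cast h4
    nlinarith
  · have h6 : ((a.1 : ℕ) : ZMod p) - s * ((a.2 : ℕ) : ZMod p) =
        ((b.1 : ℕ) : ZMod p) - s * ((b.2 : ℕ) : ZMod p) := hf
    push_cast
    linear_combination h6

theorem rp_prime_two {p : ℕ} (hp : p.Prime) (h : IsSquare (-2 : ZMod p)) : Rp 2 p := by
  obtain ⟨s, hs⟩ := h
  obtain ⟨x, y, hxy, hx, hy, he⟩ := thue hp s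
  have h1 : ((x ^ 2 + 2 * y ^ 2 : ℤ) : ZMod p) = 0 := by
    push_cast
    rw [he]
    linear_combination (- (y : ZMod p) ^ 2) * hs
  rw [ZMod.intCast_zmod_eq_zero_iff_dvd] at h1
  obtain ⟨m, hm⟩ := h1
  have hp0 : (0 : ℤ) < p := by exact_mod_cast hp.pos
  have hpos : 0 < x ^ 2 + 2 * y ^ 2 := by
    rcases hxy with h | h
    · have := pow_pos (abs_pos.2 h) 2
      rw [sq_abs] at this
      nlinarith [sq_nonneg y]
    · have := pow_pos (abs_pos.2 h) 2
      rw [sq_abs] at this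
      nlinarith [sq_nonneg x]
  have hm0 : 0 < m := by
    by_contra hcon
    push Not at hcon
    nlinarith
  have hm3 : m < 3 := by
    by_contra hcon
    push Not at hcon
    nlinarith
  interval_cases m
  · exact ⟨x, y, by linarith⟩
  · -- `x` is even
    have hx2 : Even x := by
      have : Even (x ^ 2) := ⟨p - y ^ 2, by linarith⟩
      exact (Int.even_pow.1 this).1
    obtain ⟨z, hz⟩ := hx2
    refine ⟨y, z, ?_⟩
    rw [hz] at hm
    nlinarith

theorem rp_prime_neg_two {p : ℕ} (hp : p.Prime) (h : IsSquare (2 : ZMod p)) : Rp (-2) p := by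
  obtain ⟨s, hs⟩ := h
  obtain ⟨x, y, hxy, hx, hy, he⟩ := thue hp s
  have h1 : ((x ^ 2 - 2 * y ^ 2 : ℤ) : ZMod p) = 0 := by
    push_cast
    rw [he]
    linear_combination (- (y : ZMod p) ^ 2) * hs
  rw [ZMod.intCast_zmod_eq_zero_iff_dvd] at h1
  obtain ⟨m, hm⟩ := h1
  have hp0 : (0 : ℤ) < p := by exact_mod_cast hp.pos
  have hne : x ^ 2 - 2 * y ^ 2 ≠ 0 := by
    intro h0
    have hy0 : y ≠ 0 := by
      rintro rfl
      rcases hxy with h | h
      · apply h
        have : x ^ 2 = 0 := by linarith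
        exact pow_eq_zero_iff (two_ne_zero) |>.1 this
      · exact h rfl
    have h2 : (x : ℝ) ^ 2 = 2 * (y : ℝ) ^ 2 := by exact_mod_cast (by linarith : x ^ 2 = 2 * y ^ 2)
    have hyR : (y : ℝ) ≠ 0 := by exact_mod_cast hy0
    have h3 : ((x : ℝ) / y) ^ 2 = 2 := by
      rw [div_pow, h2]; field_simp
    have h4 : Irrational (Real.sqrt 2) := irrational_sqrt_two
    have h5 : |(x : ℝ) / y| = Real.sqrt 2 := by
      rw [← h3, Real.sqrt_sq_eq_abs]
    apply h4
    refine ⟨|(x : ℚ) / y|, ?_⟩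
    rw [← h5]
    push_cast
    rfl
  have hm1 : m = -1 := by
    have a1 : m < 1 := by
      by_contra hcon
      push Not at hcon
      nlinarith [sq_nonneg y]
    have a2 : -2 < m := by
      by_contra hcon
      push Not at hcon
      nlinarith [sq_nonneg x]
    have a3 : m ≠ 0 := by
      rintro rfl
      rw [mul_zero] at hm
      exact hne hm
    omega
  rw [hm1] at hm
  exact ⟨x + 2 * y, x + y, by linarith⟩

theorem rp_of_primes {D : ℤ} {n : ℕ} (hn : 0 < n)
    (h : ∀ p : ℕ, p.Prime → Odd (n.factorization p) → Rp D p) : Rp D n := by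
  obtain ⟨a, b, ha0, hb0, hab, hsq⟩ := Nat.sq_mul_squarefree_of_pos hn
  have h1 : Rp D (b ^ 2) := ⟨b, 0, by push_cast; ring⟩
  have h2 : Rp D a := by
    rw [← Nat.prod_primeFactors_of_squarefree hsq]
    apply Finset.prod_induction (fun p : ℕ => p) (fun m => Rp D m) (fun _ _ => Rp.mul) (Rp.one D)
    intro p hp
    have hpp := Nat.prime_of_mem_primeFactors hp
    apply h p hpp
    rw [← hab, Nat.factorization_mul (by positivity) ha0.ne', Finsupp.add_apply,
      Nat.factorization_pow, Finsupp.smul_apply, smul_eq_mul]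
    have h3 : a.factorization p = 1 := by
      have h4 := hsq.natFactorization_le_one p
      have h5 := hpp.factorization_pos_of_dvd ha0.ne' (Nat.dvd_of_mem_primeFactors hp)
      omega
    rw [h3]
    exact ⟨b.factorization p, rfl⟩
  rw [← hab]
  exact h1.mul h2

end Pool.Agent.W825.KV
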